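import Mathlib

/-! Spherical mean inequality for twice continuously differentiable functions with
nonpositive Laplacian, in any finite dimensional real inner product space. -/

open MeasureTheory Metric Set Filter Topology InnerProductSpace Laplacian
open scoped RealInnerProductSpace

namespace Pool.Agent.Lib.MP_770c06_an

variable {E : Type*} [NormedAddCommGroup E] [InnerProductSpace ℝ E] [FiniteDimensional ℝ E]
  [MeasurableSpace E] [BorelSpace E] [Nontrivial E] (μ : Measure E) [μ.IsAddHaarMeasure]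

/-- polar coordinates -/
theorem integral_polar (f : E → ℝ) (hf : Integrable f μ) :
    ∫ x, f x ∂μ = ∫ ρ in Ioi (0 : ℝ), ρ ^ (Module.finrank ℝ E - 1) *
      ∫ ω : sphere (0 : E) 1, f (ρ • (ω : E)) ∂μ.toSphere := by
  have hmp := μ.measurePreserving_homeomorphUnitSphereProd
  let g : sphere (0 : E) 1 × Ioi (0 : ℝ) → ℝ := fun q => f (q.2.1 • (q.1 : E))
  have hgf : ∀ x : ({(0)}ᶜ : Set E), g (homeomorphUnitSphereProd E x) = f x.1 := by
    intro x
    have hx : ‖(x : E)‖ ≠ 0 := by simpa [-Subtype.coe_prop] using x.2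
    simp only [g, homeomorphUnitSphereProd_apply_snd_coe, homeomorphUnitSphereProd_apply_fst_coe]
    simp [smul_smul, hx]
  have hint0 : Integrable (fun x : ({(0)}ᶜ : Set E) => f x.1) (μ.comap (↑)) := by
    have : IntegrableOn f ({(0)}ᶜ : Set E) μ := hf.integrableOn
    exact (integrableOn_iff_comap_subtypeVal (measurableSet_singleton _).compl).1 this
  have hint : Integrable g (μ.toSphere.prod (Measure.volumeIoiPow (Module.finrank ℝ E - 1))) := by
    rw [← hmp.integrable_comp_emb (Homeomorph.measurableEmbedding _)]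
    refine hint0.congr (Eventually.of_forall fun x => ?_)
    exact (hgf x).symm
  calc ∫ x, f x ∂μ = ∫ x : ({(0)}ᶜ : Set E), f x.1 ∂(μ.comap (↑)) := by
        rw [integral_subtype_comap (measurableSet_singleton _).compl f, restrict_compl_singleton]
    _ = ∫ x : ({(0)}ᶜ : Set E), g (homeomorphUnitSphereProd E x) ∂(μ.comap (↑)) := by
        simp only [hgf]
    _ = ∫ q, g q ∂(μ.toSphere.prod (Measure.volumeIoiPow (Module.finrank ℝ E - 1))) :=
        hmp.integral_comp (Homeomorph.measurableEmbedding _) g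
    _ = ∫ ρ : Ioi (0 : ℝ), ∫ ω : sphere (0 : E) 1, f (ρ.1 • (ω : E)) ∂μ.toSphere
          ∂(Measure.volumeIoiPow (Module.finrank ℝ E - 1)) := integral_prod_symm g hint
    _ = _ := by
        simp only [Measure.volumeIoiPow, ENNReal.ofReal]
        rw [integral_withDensity_eq_integral_smul,
          integral_subtype_comap measurableSet_Ioi fun a ↦
            Real.toNNReal (a ^ (Module.finrank ℝ E - 1)) •
              ∫ ω : sphere (0 : E) 1, f (a • (ω : E)) ∂μ.toSphere,
          setIntegral_congr_fun measurableSet_Ioi fun x hx ↦ ?_]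
        · rw [NNReal.smul_def, Real.coe_toNNReal _ (pow_nonneg hx.out.le _), smul_eq_mul]
        · exact (measurable_subtype_coe.pow_const _).real_toNNReal

omit [MeasurableSpace E] [BorelSpace E] [Nontrivial E] in
theorem laplacian_eq_sum (u : E → ℝ) (x : E) :
    Δ u x = ∑ i, fderiv ℝ (fderiv ℝ u) x (stdOrthonormalBasis ℝ E i) (stdOrthonormalBasis ℝ E i) := by
  rw [laplacian_eq_iteratedFDeriv_stdOrthonormalBasis]
  simp [iteratedFDeriv_two_apply]

omit [Nontrivial E] in
/-- integration by parts against a radial weight -/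
theorem integral_radial_nonpos (u : E → ℝ) (c : E) (r : ℝ) (hr : 0 < r)
    (hu : ∀ x ∈ closedBall c r, ContDiffAt ℝ 2 u x) (hΔ : ∀ x ∈ closedBall c r, Δ u x ≤ 0)
    (β : ℝ → ℝ) (hβ : Continuous β) (hβ0 : ∀ s, 0 ≤ β s) (hβr : ∀ s, r ^ 2 ≤ s → β s = 0) :
    ∫ y, β (‖y - c‖ ^ 2) * fderiv ℝ u y (y - c) ∂μ ≤ 0 := by
  set b := stdOrthonormalBasis ℝ E
  let χ : ℝ → ℝ := fun τ => ∫ s in τ..(r ^ 2), β s
  have hχd : ∀ τ, HasDerivAt χ (-β τ) τ := fun τ =>
    intervalIntegral.integral_hasDerivAt_left (hβ.intervalIntegrable _ _)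
      (hβ.stronglyMeasurableAtFilter _ _) hβ.continuousAt
  have hχ0 : ∀ τ, r ^ 2 ≤ τ → χ τ = 0 := by
    intro τ hτ
    simp only [χ]
    rw [intervalIntegral.integral_symm, intervalIntegral.integral_congr (g := fun _ => 0)]
    · simp
    · intro s hs
      rw [uIcc_of_le hτ] at hs
      exact hβr s hs.1
  have hχnn : ∀ τ, 0 ≤ χ τ := by
    intro τ
    rcases le_total τ (r ^ 2) with h | h
    · exact intervalIntegral.integral_nonneg h fun s _ => hβ0 s
    · exact (hχ0 τ h).ge
  let w : E → ℝ := fun y => χ (‖y - c‖ ^ 2)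
  have hout : ∀ y, y ∉ closedBall c r → r ^ 2 ≤ ‖y - c‖ ^ 2 := by
    intro y hy
    rw [mem_closedBall, dist_eq_norm, not_le] at hy
    exact pow_le_pow_left₀ hr.le hy.le 2
  have hwd : ∀ y, HasFDerivAt w ((-β (‖y - c‖ ^ 2)) • (2 • innerSL ℝ (y - c))) y := by
    intro y
    have h1 : HasFDerivAt (fun y : E => ‖y - c‖ ^ 2) (2 • innerSL ℝ (y - c)) y := by
      have := ((hasFDerivAt_id (𝕜 := ℝ) y).sub_const c).norm_sq
      simpa using this
    exact (hχd _).comp_hasFDerivAt y h1
  have hwc : Continuous w := continuous_iff_continuousAt.2 fun y => (hwd y).continuousAt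
  have hwsupp : tsupport w ⊆ closedBall c r := by
    apply closure_minimal _ isClosed_closedBall
    intro y hy
    by_contra h
    exact hy (hχ0 _ (hout y h))
  have hD1 : ∀ x ∈ closedBall c r, ContDiffAt ℝ 1 (fderiv ℝ u) x := fun x hx =>
    (hu x hx).fderiv_right (m := 1) (by norm_num)
  have hD1c : ContinuousOn (fderiv ℝ u) (closedBall c r) := fun x hx =>
    (hD1 x hx).continuousAt.continuousWithinAt
  have hD2c : ContinuousOn (fderiv ℝ (fderiv ℝ u)) (closedBall c r) := fun x hx =>
    ((hD1 x hx).fderiv_right (m := 0) (by norm_num)).continuousAt.continuousWithinAt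
  have hintg : ∀ f : E → ℝ, ContinuousOn f (closedBall c r) →
      (∀ y, y ∉ closedBall c r → f y = 0) → Integrable f μ := by
    intro f hf h0
    refine (integrableOn_iff_integrable_of_support_subset (s := closedBall c r) ?_).1
      (hf.integrableOn_compact (isCompact_closedBall c r))
    intro y hy
    by_contra h
    exact hy (h0 y h)
  have hβc : Continuous fun y : E => β (‖y - c‖ ^ 2) := hβ.comp (by fun_prop)
  have hI1 : ∀ i, Integrable
      (fun y => (-β (‖y - c‖ ^ 2) * (2 * ⟪y - c, b i⟫)) * fderiv ℝ u y (b i)) μ := by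
    intro i
    apply hintg
    · refine ContinuousOn.mul (Continuous.continuousOn ?_) (hD1c.clm_apply continuousOn_const)
      exact hβc.neg.mul (by fun_prop)
    · intro y hy
      simp [hβr _ (hout y hy)]
  have hI2 : ∀ i, Integrable (fun y => w y * fderiv ℝ (fderiv ℝ u) y (b i) (b i)) μ := by
    intro i
    apply hintg
    · exact hwc.continuousOn.mul ((hD2c.clm_apply continuousOn_const).clm_apply continuousOn_const)
    · intro y hy
      simp [w, hχ0 _ (hout y hy)]
  have hI3 : ∀ i, Integrable (fun y => w y * fderiv ℝ u y (b i)) μ := by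
    intro i
    apply hintg
    · exact hwc.continuousOn.mul (hD1c.clm_apply continuousOn_const)
    · intro y hy
      simp [w, hχ0 _ (hout y hy)]
  have hibp : ∀ i, ∫ y, w y * fderiv ℝ (fderiv ℝ u) y (b i) (b i) ∂μ =
      - ∫ y, (-β (‖y - c‖ ^ 2) * (2 * ⟪y - c, b i⟫)) * fderiv ℝ u y (b i) ∂μ := by
    intro i
    have := integral_bilinear_hasLineDerivAt_right_eq_neg_left_of_integrable (μ := μ)
      (f := w) (f' := fun y => -β (‖y - c‖ ^ 2) * (2 * ⟪y - c, b i⟫))
      (g := fun y => fderiv ℝ u y (b i)) (g' := fun y => fderiv ℝ (fderiv ℝ u) y (b i) (b i))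
      (v := b i) (B := ContinuousLinearMap.mul ℝ ℝ) (hI1 i) (hI2 i) (hI3 i) ?_ ?_
    · simpa using this
    · intro x _
      have := (hwd x).hasLineDerivAt (b i)
      simpa [inner_sub_left] using this
    · intro x hx
      have h1 := ((hD1 x (hwsupp hx)).differentiableAt (by norm_num)).hasFDerivAt
      have h2 := (h1.clm_apply (hasFDerivAt_const (b i) x)).hasLineDerivAt (b i)
      simpa using h2
  have hsum : ∫ y, w y * Δ u y ∂μ = ∫ y, 2 * (β (‖y - c‖ ^ 2) * fderiv ℝ u y (y - c)) ∂μ := by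
    calc ∫ y, w y * Δ u y ∂μ
        = ∫ y, ∑ i, w y * fderiv ℝ (fderiv ℝ u) y (b i) (b i) ∂μ := by
          congr 1; ext y; rw [laplacian_eq_sum, Finset.mul_sum]
      _ = ∑ i, ∫ y, w y * fderiv ℝ (fderiv ℝ u) y (b i) (b i) ∂μ :=
          integral_finsetSum _ fun i _ => hI2 i
      _ = ∑ i, - ∫ y, (-β (‖y - c‖ ^ 2) * (2 * ⟪y - c, b i⟫)) * fderiv ℝ u y (b i) ∂μ :=
          Finset.sum_congr rfl fun i _ => hibp i
      _ = - ∫ y, ∑ i, (-β (‖y - c‖ ^ 2) * (2 * ⟪y - c, b i⟫)) * fderiv ℝ u y (b i) ∂μ := by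
          rw [Finset.sum_neg_distrib, integral_finsetSum _ fun i _ => hI1 i]
      _ = _ := by
          rw [← integral_neg]
          congr 1; ext y
          have h1 : fderiv ℝ u y (y - c) = ∑ i, ⟪y - c, b i⟫ * fderiv ℝ u y (b i) := by
            conv_lhs => rw [← b.sum_repr' (y - c)]
            simp [map_sum, real_inner_comm]
          rw [h1, Finset.mul_sum, Finset.mul_sum, ← Finset.sum_neg_distrib]
          refine Finset.sum_congr rfl fun i _ => by ring
  have hle : ∫ y, w y * Δ u y ∂μ ≤ 0 := by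
    apply integral_nonpos
    intro y
    by_cases hy : y ∈ closedBall c r
    · exact mul_nonpos_of_nonneg_of_nonpos (hχnn _) (hΔ y hy)
    · simp [w, hχ0 _ (hout y hy)]
  rw [hsum, integral_const_mul] at hle
  linarith

/-- Spherical mean inequality. -/
theorem sphere_integral_le (u : E → ℝ) (c : E) (r : ℝ) (hr : 0 < r)
    (hu : ∀ x ∈ closedBall c r, ContDiffAt ℝ 2 u x) (hΔ : ∀ x ∈ closedBall c r, Δ u x ≤ 0) :
    ∫ ω : sphere (0 : E) 1, u (c + r • (ω : E)) ∂μ.toSphere ≤ μ.toSphere.real univ * u c := by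
  have hD1 : ∀ x ∈ closedBall c r, ContDiffAt ℝ 1 (fderiv ℝ u) x := fun x hx =>
    (hu x hx).fderiv_right (m := 1) (by norm_num)
  have hD1c : ContinuousOn (fderiv ℝ u) (closedBall c r) := fun x hx =>
    (hD1 x hx).continuousAt.continuousWithinAt
  have hmem : ∀ ρ : ℝ, 0 ≤ ρ → ρ ≤ r → ∀ ω : sphere (0 : E) 1, c + ρ • (ω : E) ∈ closedBall c r := by
    intro ρ h0 h1 ω
    have hω : ‖(ω : E)‖ = 1 := by simp
    simp [norm_smul, hω, abs_of_nonneg h0, h1]
  let cl : ℝ → ℝ := fun ρ => max 0 (min ρ r)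
  have hcl0 : ∀ ρ, 0 ≤ cl ρ := fun ρ => le_max_left _ _
  have hcl1 : ∀ ρ, cl ρ ≤ r := fun ρ => max_le hr.le (min_le_right _ _)
  have hcl2 : ∀ ρ, 0 ≤ ρ → ρ ≤ r → cl ρ = ρ := by
    intro ρ h0 h1
    simp [cl, min_eq_left h1, h0]
  let k : ℝ → sphere (0 : E) 1 → ℝ := fun ρ ω => fderiv ℝ u (c + cl ρ • (ω : E)) (ω : E)
  have hkc : Continuous (Function.uncurry k) := by
    have h1 : Continuous fun q : ℝ × sphere (0 : E) 1 => c + cl q.1 • (q.2 : E) := by
      simp only [cl]; fun_prop
    have h2 := hD1c.comp_continuous h1 (fun q => hmem _ (hcl0 _) (hcl1 _) _)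
    exact h2.clm_apply (by fun_prop)
  let T : ℝ → ℝ := fun ρ => ∫ ω, k ρ ω ∂μ.toSphere
  have hTc : Continuous T := by
    have := continuous_parametric_integral_of_continuous (μ := μ.toSphere) hkc isCompact_univ
    simpa using this
  have hT : ∀ ρ₀, 0 < ρ₀ → ρ₀ < r → T ρ₀ ≤ 0 := by
    intro ρ₀ h0 h1
    by_contra hpos
    rw [not_le] at hpos
    have hev : ∀ᶠ ρ in 𝓝 ρ₀, 0 < T ρ ∧ 0 < ρ ∧ ρ < r :=
      (hTc.continuousAt.eventually (lt_mem_nhds hpos)).and
        ((lt_mem_nhds h0).and (gt_mem_nhds h1))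
    obtain ⟨δ, hδ, hball⟩ := Metric.eventually_nhds_iff.1 hev
    set a := ρ₀ - δ / 2
    set b := ρ₀ + δ / 2
    have hab : a < b := by simp only [a, b]; linarith
    have hin : ∀ ρ, a ≤ ρ → ρ ≤ b → 0 < T ρ ∧ 0 < ρ ∧ ρ < r := by
      intro ρ ha hb
      apply hball
      rw [Real.dist_eq, abs_lt]
      constructor <;> simp only [a, b] at ha hb <;> linarith
    have ha0 : 0 < a := (hin a le_rfl hab.le).2.1
    have hbr : b < r := (hin b hab.le le_rfl).2.2
    let β : ℝ → ℝ := fun s => max 0 ((s - a ^ 2) * (b ^ 2 - s))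
    have hβc : Continuous β := by simp only [β]; fun_prop
    have hab2 : a ^ 2 < b ^ 2 := by nlinarith
    have hβb : ∀ s, b ^ 2 ≤ s → β s = 0 := by
      intro s hs
      apply max_eq_left
      nlinarith
    have hβa : ∀ s, s ≤ a ^ 2 → β s = 0 := by
      intro s hs
      apply max_eq_left
      nlinarith
    have hβr : ∀ s, r ^ 2 ≤ s → β s = 0 := fun s hs => hβb s (by nlinarith)
    have key := integral_radial_nonpos μ u c r hr hu hΔ β hβc (fun s => le_max_left _ _) hβr
    rw [← integral_add_left_eq_self _ c] at key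
    simp only [add_sub_cancel_left] at key
    have hint : Integrable (fun y : E => β (‖y‖ ^ 2) * fderiv ℝ u (c + y) y) μ := by
      refine (integrableOn_iff_integrable_of_support_subset (s := closedBall 0 r) ?_).1
        (ContinuousOn.integrableOn_compact (isCompact_closedBall 0 r) ?_)
      · intro y hy
        by_contra h
        rw [mem_closedBall, dist_zero_right, not_le] at h
        apply hy
        simp [hβr _ (pow_le_pow_left₀ hr.le h.le 2)]
      · refine ContinuousOn.mul (Continuous.continuousOn (hβc.comp (by fun_prop))) ?_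
        refine ContinuousOn.clm_apply ?_ continuousOn_id
        refine hD1c.comp (by fun_prop) ?_
        intro y hy
        simpa using hy
    rw [integral_polar μ _ hint] at key
    have hcongr : ∀ ρ ∈ Ioi (0 : ℝ), ρ ^ (Module.finrank ℝ E - 1) *
        ∫ ω : sphere (0 : E) 1, β (‖ρ • (ω : E)‖ ^ 2) * fderiv ℝ u (c + ρ • (ω : E)) (ρ • (ω : E))
          ∂μ.toSphere =
        (Ioc a b).indicator (fun ρ => ρ ^ (Module.finrank ℝ E - 1) * (β (ρ ^ 2) * ρ * T ρ)) ρ := by
      intro ρ hρ
      have hρ0 : 0 < ρ := hρ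
      have hn : ∀ ω : sphere (0 : E) 1, ‖ρ • (ω : E)‖ = ρ := by
        intro ω
        have hω : ‖(ω : E)‖ = 1 := by simp
        simp [norm_smul, hω, abs_of_pos hρ0]
      simp only [hn]
      by_cases hm : ρ ∈ Ioc a b
      · rw [indicator_of_mem hm]
        congr 1
        simp only [T, k, hcl2 ρ hρ0.le (hm.2.trans hbr.le), map_smul, smul_eq_mul]
        rw [← integral_const_mul]
        congr 1; ext ω; ring
      · rw [indicator_of_notMem hm]
        have : β (ρ ^ 2) = 0 := by
          rw [mem_Ioc, not_and_or, not_lt, not_le] at hm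
          rcases hm with h | h
          · exact hβa _ (by nlinarith)
          · exact hβb _ (by nlinarith)
        simp [this]
    have hsub : Ioc a b ⊆ Ioi (0 : ℝ) := fun x hx => lt_trans ha0 hx.1
    rw [setIntegral_congr_fun measurableSet_Ioi hcongr, setIntegral_indicator measurableSet_Ioc,
      inter_eq_right.2 hsub,
      ← intervalIntegral.integral_of_le hab.le] at key
    have hp : 0 < ∫ ρ in a..b, ρ ^ (Module.finrank ℝ E - 1) * (β (ρ ^ 2) * ρ * T ρ) := by
      apply intervalIntegral.intervalIntegral_pos_of_pos_on _ _ hab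
      · apply Continuous.intervalIntegrable
        have : Continuous fun ρ : ℝ => β (ρ ^ 2) := hβc.comp (by fun_prop)
        fun_prop
      · intro ρ hρ
        obtain ⟨h1, h2, -⟩ := hin ρ hρ.1.le hρ.2.le
        have h3 : 0 < β (ρ ^ 2) := by
          apply lt_max_of_lt_right
          apply mul_pos <;> nlinarith [hρ.1, hρ.2]
        positivity
    linarith
  have hFTC : ∀ ω : sphere (0 : E) 1, ∫ ρ in (0 : ℝ)..r, k ρ ω = u (c + r • (ω : E)) - u c := by
    intro ω
    have := intervalIntegral.integral_eq_sub_of_hasDerivAt (a := 0) (b := r)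
      (f := fun ρ : ℝ => u (c + ρ • (ω : E))) (f' := fun ρ => k ρ ω) ?_ ?_
    · simpa using this
    · intro ρ hρ
      rw [uIcc_of_le hr.le] at hρ
      have h1 := ((hu _ (hmem ρ hρ.1 hρ.2 ω)).differentiableAt (by norm_num)).hasFDerivAt
      have h2 : HasDerivAt (fun ρ : ℝ => c + ρ • (ω : E)) (ω : E) ρ := by
        simpa using ((hasDerivAt_id ρ).smul_const (ω : E)).const_add c
      have h3 := h1.comp_hasDerivAt ρ h2
      simpa [k, hcl2 ρ hρ.1 hρ.2, Function.comp_def] using h3
    · apply Continuous.intervalIntegrable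
      exact hkc.comp (Continuous.prodMk_left ω)
  have hswap : ∫ ρ in (0 : ℝ)..r, T ρ = ∫ ω, (∫ ρ in (0 : ℝ)..r, k ρ ω) ∂μ.toSphere := by
    apply intervalIntegral_integral_swap
    have h1 : IntegrableOn (Function.uncurry k) (uIcc 0 r ×ˢ univ) (volume.prod μ.toSphere) :=
      hkc.continuousOn.integrableOn_compact (isCompact_uIcc.prod isCompact_univ)
    have h2 := h1.mono_set (prod_mono (uIoc_subset_uIcc (a := 0) (b := r)) Subset.rfl)
    rw [IntegrableOn, ← Measure.prod_restrict] at h2
    simpa using h2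
  have hle : ∫ ρ in (0 : ℝ)..r, T ρ ≤ 0 := by
    rw [intervalIntegral.integral_of_le hr.le, integral_Ioc_eq_integral_Ioo]
    exact setIntegral_nonpos measurableSet_Ioo fun ρ hρ => hT ρ hρ.1 hρ.2
  have hcont : Continuous fun ω : sphere (0 : E) 1 => u (c + r • (ω : E)) := by
    have huc : ContinuousOn u (closedBall c r) := fun x hx =>
      (hu x hx).continuousAt.continuousWithinAt
    exact huc.comp_continuous (by fun_prop) (fun ω => hmem r hr.le le_rfl ω)
  have hintu : Integrable (fun ω : sphere (0 : E) 1 => u (c + r • (ω : E))) μ.toSphere :=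
    hcont.integrable_of_hasCompactSupport (HasCompactSupport.of_compactSpace _)
  rw [hswap] at hle
  simp only [hFTC] at hle
  rw [integral_sub hintu (integrable_const _), integral_const, smul_eq_mul] at hle
  linarith

end Pool.Agent.Lib.MP_770c06_an
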