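import Mathlib
import Pool.Agent.Lib.MP_770c06_an.MeanValue

/-! A comparison principle between lower semicontinuous functions with the super mean value
property and smooth subharmonic functions. -/

open MeasureTheory Metric Set Filter Topology InnerProductSpace Laplacian
open scoped RealInnerProductSpace ENNReal

namespace Pool.Agent.Lib.MP_770c06_an

variable {E : Type*} [NormedAddCommGroup E] [InnerProductSpace ℝ E] [FiniteDimensional ℝ E]

theorem laplacian_affine (L : E →L[ℝ] ℝ) (a : ℝ) (x : E) : Δ (fun y => L y + a) x = 0 := by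
  rw [laplacian_eq_sum]
  have : fderiv ℝ (fun y => L y + a) = fun _ => L := by
    ext1 y
    exact (L.hasFDerivAt.add_const a).fderiv
  simp [this]

variable [MeasurableSpace E] [BorelSpace E] [Nontrivial E] (μ : Measure E) [μ.IsAddHaarMeasure]

omit [FiniteDimensional ℝ E] [MeasurableSpace E] [BorelSpace E] [Nontrivial E] in
theorem sphere_mem (c : E) {r : ℝ} (hr : 0 < r) (ω : sphere (0 : E) 1) :
    c + r • (ω : E) ∈ closedBall c r := by
  have hω : ‖(ω : E)‖ = 1 := by simp
  simp [norm_smul, hω, abs_of_pos hr]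

theorem toSphere_real_pos : 0 < μ.toSphere.real univ := by
  rw [measureReal_def]
  exact ENNReal.toReal_pos (Measure.measure_univ_ne_zero.2 (Measure.toSphere_ne_zero μ)) (measure_ne_top _ _)

theorem comparison (D : Set E) (u : E → ℝ≥0∞) (hlsc : LowerSemicontinuousOn u D)
    (hmean : ∀ (c : E) (r : ℝ), 0 < r → closedBall c r ⊆ D →
      ⨍⁻ ω : sphere (0 : E) 1, u (c + r • (ω : E)) ∂μ.toSphere ≤ u c)
    (K : Set E) (hK : IsCompact K) (hKD : K ⊆ D) (ψ : E → ℝ) (hψ : ContinuousOn ψ K)
    (hbd : ∀ x ∈ K, ENNReal.ofReal (ψ x) ≤ u x ∨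
      (K ∈ 𝓝 x ∧ ∀ᶠ y in 𝓝 x, ContDiffAt ℝ 2 ψ y ∧ 0 ≤ Δ ψ y)) :
    ∀ x ∈ K, ENNReal.ofReal (ψ x) ≤ u x := by
  intro x₀ hx₀
  obtain ⟨B, hB⟩ : ∃ B : ℝ, ∀ x ∈ K, ‖x‖ ^ 2 ≤ B := by
    obtain ⟨B, hB⟩ := hK.bddAbove_image (f := fun x : E => ‖x‖ ^ 2) (by fun_prop)
    exact ⟨B, fun x hx => hB ⟨x, hx, rfl⟩⟩
  obtain ⟨A₀, hA₀⟩ : ∃ A : ℝ, ∀ x ∈ K, ψ x ≤ A := by
    obtain ⟨A, hA⟩ := hK.bddAbove_image hψ
    exact ⟨A, fun x hx => hA ⟨x, hx, rfl⟩⟩
  have main : ∀ ε : ℝ, 0 < ε → ENNReal.ofReal (ψ x₀ + ε * (‖x₀‖ ^ 2 - B)) ≤ u x₀ := by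
    intro ε hε
    set A := A₀ + 1
    let φ : E → ℝ := fun x => ψ x + ε * (‖x‖ ^ 2 - B)
    have hφψ : ∀ x ∈ K, φ x ≤ ψ x := fun x hx => by
      have := mul_nonneg hε.le (sub_nonneg.2 (hB x hx))
      simp only [φ]; nlinarith
    have hφA : ∀ x ∈ K, 0 < A - φ x := fun x hx => by
      have := hφψ x hx; have := hA₀ x hx; simp only [A]; linarith
    have hφc : ContinuousOn φ K := hψ.add (by fun_prop)
    let k : E → ℝ≥0∞ := fun x => u x + ENNReal.ofReal (A - φ x)
    have hk : LowerSemicontinuousOn k K := by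
      refine LowerSemicontinuousOn.add (hlsc.mono hKD) ?_
      exact (ENNReal.continuous_ofReal.comp_continuousOn
        (continuousOn_const.sub hφc)).lowerSemicontinuousOn
    obtain ⟨x₁, hx₁, hmin⟩ := hk.exists_isMinOn ⟨x₀, hx₀⟩ hK
    have hclaim : ENNReal.ofReal A ≤ k x₁ := by
      rcases hbd x₁ hx₁ with h | ⟨h1, h2⟩
      · calc ENNReal.ofReal A = ENNReal.ofReal (φ x₁ + (A - φ x₁)) := by congr 1; ring
          _ ≤ ENNReal.ofReal (φ x₁) + ENNReal.ofReal (A - φ x₁) := ENNReal.ofReal_add_le
          _ ≤ k x₁ := by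
            simp only [k]
            gcongr
            exact (ENNReal.ofReal_le_ofReal (hφψ x₁ hx₁)).trans h
      · by_cases htop : u x₁ = ⊤
        · simp [k, htop]
        exfalso
        obtain ⟨r, hr, hball⟩ := Metric.nhds_basis_closedBall.mem_iff.1 (inter_mem h1 h2)
        have hbK : closedBall x₁ r ⊆ K := fun y hy => (hball hy).1
        let L : E →L[ℝ] ℝ := (-(2 * ε)) • innerSL ℝ x₁
        let a : ℝ := A + ε * (‖x₁‖ ^ 2 + B)
        let v : E → ℝ := (fun y => L y + a) - ψ
        have haff : ∀ y, ContDiffAt ℝ 2 (fun y => L y + a) y := fun y =>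
          (L.contDiff.add contDiff_const).contDiffAt
        have hv1 : ∀ y ∈ closedBall x₁ r, ContDiffAt ℝ 2 v y := fun y hy =>
          (haff y).sub (hball hy).2.1
        have hv2 : ∀ y ∈ closedBall x₁ r, Δ v y ≤ 0 := fun y hy => by
          have := (haff y).laplacian_sub (hball hy).2.1
          simp only [v]
          rw [this, laplacian_affine]
          linarith [(hball hy).2.2]
        have hS := sphere_integral_le μ v x₁ r hr hv1 hv2
        have hvφ : ∀ y, A - φ y = v y - ε * ‖y - x₁‖ ^ 2 := by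
          intro y
          simp only [v, φ, L, a, Pi.sub_apply, smul_apply, innerSL_apply_apply,
            smul_eq_mul]
          rw [norm_sub_sq_real, real_inner_comm]
          ring
        have hvs : ∀ ω : sphere (0 : E) 1,
            A - φ (x₁ + r • (ω : E)) = v (x₁ + r • (ω : E)) - ε * r ^ 2 := by
          intro ω
          have hω : ‖(ω : E)‖ = 1 := by simp
          rw [hvφ]
          simp [norm_smul, hω]
        have hvc : Continuous fun ω : sphere (0 : E) 1 => v (x₁ + r • (ω : E)) := by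
          have huc : ContinuousOn v (closedBall x₁ r) := fun x hx =>
            (hv1 x hx).continuousAt.continuousWithinAt
          exact huc.comp_continuous (by fun_prop) (sphere_mem x₁ hr)
        have hvi : Integrable (fun ω : sphere (0 : E) 1 => v (x₁ + r • (ω : E))) μ.toSphere :=
          hvc.integrable_of_hasCompactSupport (HasCompactSupport.of_compactSpace _)
        set σ := μ.toSphere.real univ with hσ
        have hσ0 : 0 < σ := toSphere_real_pos μ
        have hσe : μ.toSphere univ = ENNReal.ofReal σ := by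
          rw [hσ, measureReal_def, ENNReal.ofReal_toReal (measure_ne_top _ _)]
        have hI1 : ∫⁻ ω : sphere (0 : E) 1, ENNReal.ofReal (A - φ (x₁ + r • (ω : E))) ∂μ.toSphere
            ≤ ENNReal.ofReal (σ * (A - φ x₁ - ε * r ^ 2)) := by
          have hi2 : Integrable (fun ω : sphere (0 : E) 1 => A - φ (x₁ + r • (ω : E)))
              μ.toSphere := by
            simp only [hvs]
            exact hvi.sub (integrable_const _)
          rw [← ofReal_integral_eq_lintegral_ofReal hi2
            (Eventually.of_forall fun ω => (hφA _ (hbK (sphere_mem x₁ hr ω))).le)]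
          apply ENNReal.ofReal_le_ofReal
          simp only [hvs]
          rw [integral_sub hvi (integrable_const _), integral_const, smul_eq_mul, hvφ x₁]
          simp only [sub_self, norm_zero]
          nlinarith
        have hI2 : ∫⁻ ω : sphere (0 : E) 1, u (x₁ + r • (ω : E)) ∂μ.toSphere
            ≤ μ.toSphere univ * u x₁ := by
          rw [← measure_mul_laverage]
          gcongr
          exact hmean x₁ r hr (hbK.trans hKD)
        have hmeas : Measurable fun ω : sphere (0 : E) 1 =>
            ENNReal.ofReal (A - φ (x₁ + r • (ω : E))) := by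
          simp only [hvs]
          exact (hvc.sub continuous_const).measurable.ennreal_ofReal
        have hI3 : μ.toSphere univ * k x₁ ≤
            ∫⁻ ω : sphere (0 : E) 1, k (x₁ + r • (ω : E)) ∂μ.toSphere := by
          rw [mul_comm, ← lintegral_const]
          exact lintegral_mono fun ω => hmin (hbK (sphere_mem x₁ hr ω))
        simp only [k] at hI3
        rw [lintegral_add_right _ hmeas, mul_add] at hI3
        have hI4 := hI3.trans (add_le_add hI2 hI1)
        rw [ENNReal.add_le_add_iff_left (ENNReal.mul_ne_top (measure_ne_top _ _) htop), hσe,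
          ← ENNReal.ofReal_mul hσ0.le] at hI4
        have hp : 0 < σ * (A - φ x₁) := mul_pos hσ0 (hφA x₁ hx₁)
        have hq : 0 < σ * (ε * r ^ 2) := by positivity
        rw [ENNReal.ofReal_le_ofReal_iff'] at hI4
        rcases hI4 with h | h <;> nlinarith
    have h2 : ENNReal.ofReal A ≤ u x₀ + ENNReal.ofReal (A - φ x₀) := hclaim.trans (hmin hx₀)
    change ENNReal.ofReal (φ x₀) ≤ u x₀
    rcases le_total (φ x₀) 0 with h | h
    · simp [ENNReal.ofReal_of_nonpos h]
    · have : ENNReal.ofReal A = ENNReal.ofReal (φ x₀) + ENNReal.ofReal (A - φ x₀) := by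
        rw [← ENNReal.ofReal_add h (hφA x₀ hx₀).le]; congr 1; ring
      rw [this] at h2
      exact (ENNReal.add_le_add_iff_right ENNReal.ofReal_ne_top).1 h2
  have hlim : Tendsto (fun ε : ℝ => ENNReal.ofReal (ψ x₀ + ε * (‖x₀‖ ^ 2 - B))) (𝓝[>] 0)
      (𝓝 (ENNReal.ofReal (ψ x₀))) := by
    apply ENNReal.tendsto_ofReal
    apply Tendsto.mono_left _ nhdsWithin_le_nhds
    have : Continuous fun ε : ℝ => ψ x₀ + ε * (‖x₀‖ ^ 2 - B) := by fun_prop
    simpa using this.tendsto 0
  exact le_of_tendsto hlim (eventually_mem_nhdsWithin.mono fun ε hε => main ε hε)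

end Pool.Agent.Lib.MP_770c06_an
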