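import Mathlib
import Pool.Agent.Lib.MP_770c06_an.Comparison

/-! Chain and product rules for the Laplacian, and the harmonic functions used later. -/

open Metric Set Filter Topology InnerProductSpace Laplacian
open scoped RealInnerProductSpace

namespace Pool.Agent.Lib.MP_770c06_an

variable {E : Type*} [NormedAddCommGroup E] [InnerProductSpace ℝ E] [FiniteDimensional ℝ E]

theorem sum_inner_basis (a b : E) :
    ∑ i, ⟪a, stdOrthonormalBasis ℝ E i⟫ * ⟪b, stdOrthonormalBasis ℝ E i⟫ = ⟪a, b⟫ := by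
  rw [← (stdOrthonormalBasis ℝ E).sum_inner_mul_inner a b]
  refine Finset.sum_congr rfl fun i _ => ?_
  rw [real_inner_comm b]

theorem laplacian_chain {f : E → ℝ} {x a : E} (hf : ContDiffAt ℝ 2 f x)
    (ha : HasFDerivAt f (innerSL ℝ a) x) {φ φ' : ℝ → ℝ} {φ'' : ℝ}
    (h1 : ∀ᶠ t in 𝓝 (f x), HasDerivAt φ (φ' t) t) (h2 : HasDerivAt φ' φ'' (f x)) :
    Δ (fun y => φ (f y)) x = φ'' * ‖a‖ ^ 2 + φ' (f x) * Δ f x := by
  have hev : fderiv ℝ (fun y => φ (f y)) =ᶠ[𝓝 x] fun y => φ' (f y) • fderiv ℝ f y := by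
    filter_upwards [hf.continuousAt.eventually h1, hf.eventually (by simp)] with y hy hy2
    exact (hy.comp_hasFDerivAt y (hy2.differentiableAt (by norm_num)).hasFDerivAt).fderiv
  have hD : HasFDerivAt (fderiv ℝ f) (fderiv ℝ (fderiv ℝ f) x) x :=
    ((hf.fderiv_right (m := 1) (by norm_num)).differentiableAt (by norm_num)).hasFDerivAt
  have h3 := (h2.comp_hasFDerivAt x ha).smul hD
  have h4 : fderiv ℝ (fderiv ℝ (fun y => φ (f y))) x = _ := hev.fderiv_eq.trans h3.fderiv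
  rw [laplacian_eq_sum, laplacian_eq_sum, h4, ← real_inner_self_eq_norm_sq, ← sum_inner_basis,
    Finset.mul_sum, Finset.mul_sum, ← Finset.sum_add_distrib]
  refine Finset.sum_congr rfl fun i _ => ?_
  simp [ha.fderiv]
  ring

theorem laplacian_prod {f g : E → ℝ} {x a b : E} (hf : ContDiffAt ℝ 2 f x)
    (hg : ContDiffAt ℝ 2 g x) (ha : HasFDerivAt f (innerSL ℝ a) x)
    (hb : HasFDerivAt g (innerSL ℝ b) x) :
    Δ (fun y => f y * g y) x = f x * Δ g x + g x * Δ f x + 2 * ⟪a, b⟫ := by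
  have hev : fderiv ℝ (fun y => f y * g y) =ᶠ[𝓝 x]
      fun y => f y • fderiv ℝ g y + g y • fderiv ℝ f y := by
    filter_upwards [hf.eventually (by simp), hg.eventually (by simp)] with y hy hy2
    exact ((hy.differentiableAt (by norm_num)).hasFDerivAt.mul
      (hy2.differentiableAt (by norm_num)).hasFDerivAt).fderiv
  have hDf : HasFDerivAt (fderiv ℝ f) (fderiv ℝ (fderiv ℝ f) x) x :=
    ((hf.fderiv_right (m := 1) (by norm_num)).differentiableAt (by norm_num)).hasFDerivAt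
  have hDg : HasFDerivAt (fderiv ℝ g) (fderiv ℝ (fderiv ℝ g) x) x :=
    ((hg.fderiv_right (m := 1) (by norm_num)).differentiableAt (by norm_num)).hasFDerivAt
  have h3 := (ha.smul hDg).add (hb.smul hDf)
  have h4 : fderiv ℝ (fderiv ℝ (fun y => f y * g y)) x = _ := hev.fderiv_eq.trans h3.fderiv
  rw [laplacian_eq_sum, laplacian_eq_sum, laplacian_eq_sum, h4, ← sum_inner_basis,
    Finset.mul_sum, Finset.mul_sum, Finset.mul_sum, ← Finset.sum_add_distrib,
    ← Finset.sum_add_distrib]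
  refine Finset.sum_congr rfl fun i _ => ?_
  simp [ha.fderiv, hb.fderiv]
  ring

omit [FiniteDimensional ℝ E] in
theorem hasFDerivAt_normsq (p y : E) :
    HasFDerivAt (fun y : E => ‖y - p‖ ^ 2) (innerSL ℝ ((2 : ℝ) • (y - p))) y := by
  have := ((hasFDerivAt_id (𝕜 := ℝ) y).sub_const p).norm_sq
  refine this.congr_fderiv ?_
  ext v
  simp

omit [FiniteDimensional ℝ E] in
theorem contDiff_normsq (p : E) : ContDiff ℝ 2 (fun y : E => ‖y - p‖ ^ 2) :=
  (contDiff_norm_sq ℝ).comp (contDiff_id.sub contDiff_const)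

theorem laplacian_normsq (p x : E) :
    Δ (fun y : E => ‖y - p‖ ^ 2) x = 2 * Module.finrank ℝ E := by
  have h1 : fderiv ℝ (fun y : E => ‖y - p‖ ^ 2) = fun y => innerSL ℝ ((2 : ℝ) • (y - p)) := by
    ext1 y
    exact (hasFDerivAt_normsq p y).fderiv
  have h2 : HasFDerivAt (fun y : E => innerSL ℝ ((2 : ℝ) • (y - p)))
      ((innerSL ℝ (E := E)).comp ((2 : ℝ) • ContinuousLinearMap.id ℝ E)) x :=
    (innerSL ℝ (E := E)).hasFDerivAt.comp x (((hasFDerivAt_id x).sub_const p).const_smul (2 : ℝ))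
  rw [laplacian_eq_sum, h1, h2.fderiv]
  have h4 : ∀ i, ((innerSL ℝ (E := E)).comp ((2 : ℝ) • ContinuousLinearMap.id ℝ E))
      (stdOrthonormalBasis ℝ E i) (stdOrthonormalBasis ℝ E i) = 2 := by
    intro i
    change ⟪(2 : ℝ) • stdOrthonormalBasis ℝ E i, stdOrthonormalBasis ℝ E i⟫ = 2
    rw [real_inner_smul_left, real_inner_self_eq_norm_sq,
      (stdOrthonormalBasis ℝ E).orthonormal.1 i]
    norm_num
  simp only [h4]
  simp [mul_comm]

/-- regularised Newton kernel in dimension three -/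
theorem laplacian_newton (h3 : Module.finrank ℝ E = 3) (p x : E) (ε : ℝ)
    (hpos : 0 < ‖x - p‖ ^ 2 + ε) :
    Δ (fun y : E => (‖y - p‖ ^ 2 + ε) ^ (-(1 / 2) : ℝ)) x =
      -3 * ε * (‖x - p‖ ^ 2 + ε) ^ (-(5 / 2) : ℝ) := by
  have h := laplacian_chain (f := fun y : E => ‖y - p‖ ^ 2) (contDiff_normsq p).contDiffAt
    (hasFDerivAt_normsq p x) (φ := fun t => (t + ε) ^ (-(1 / 2) : ℝ))
    (φ' := fun t => -(1 / 2) * (t + ε) ^ (-(3 / 2) : ℝ))
    (φ'' := 3 / 4 * (‖x - p‖ ^ 2 + ε) ^ (-(5 / 2) : ℝ)) ?_ ?_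
  · rw [h, laplacian_normsq, h3, norm_smul]
    have e : (‖x - p‖ ^ 2 + ε) ^ (-(3 / 2) : ℝ) =
        (‖x - p‖ ^ 2 + ε) * (‖x - p‖ ^ 2 + ε) ^ (-(5 / 2) : ℝ) := by
      rw [show (-(3 / 2) : ℝ) = 1 + -(5 / 2) by norm_num, Real.rpow_add hpos, Real.rpow_one]
    rw [e]
    simp only [Real.norm_ofNat, Nat.cast_ofNat]
    ring
  · have : ∀ᶠ t in 𝓝 (‖x - p‖ ^ 2), 0 < t + ε :=
      (continuous_id.add continuous_const).continuousAt.eventually (lt_mem_nhds hpos)
    filter_upwards [this] with t ht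
    have := ((hasDerivAt_id t).add_const ε).rpow_const (p := -(1 / 2)) (Or.inl ht.ne')
    refine this.congr_deriv ?_
    simp only [id]
    norm_num
  · have := (((hasDerivAt_id (‖x - p‖ ^ 2)).add_const ε).rpow_const (p := -(3 / 2))
      (Or.inl hpos.ne')).const_mul (-(1 / 2) : ℝ)
    refine this.congr_deriv ?_
    simp only [id]
    norm_num
    ring

omit [FiniteDimensional ℝ E] in
theorem contDiffAt_newton (p x : E) (ε : ℝ) (hpos : 0 < ‖x - p‖ ^ 2 + ε) :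
    ContDiffAt ℝ 2 (fun y : E => (‖y - p‖ ^ 2 + ε) ^ (-(1 / 2) : ℝ)) x :=
  ((contDiff_normsq p).contDiffAt.add contDiffAt_const).rpow_const_of_ne hpos.ne'

omit [FiniteDimensional ℝ E] [InnerProductSpace ℝ E] in
theorem newton_zero (p y : E) : (‖y - p‖ ^ 2 + 0) ^ (-(1 / 2) : ℝ) = ‖y - p‖⁻¹ := by
  rw [add_zero, Real.rpow_neg (by positivity), ← Real.sqrt_eq_rpow, Real.sqrt_sq (norm_nonneg _)]

omit [FiniteDimensional ℝ E] in
theorem hasFDerivAt_norm' {x : E} (hx : x ≠ 0) :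
    HasFDerivAt (fun y : E => ‖y‖) (innerSL ℝ (‖x‖⁻¹ • x)) x := by
  have hn : ‖x‖ ≠ 0 := norm_ne_zero_iff.2 hx
  have h1 := (hasFDerivAt_normsq (0 : E) x).sqrt (by simpa using hx)
  simp only [sub_zero, Real.sqrt_sq (norm_nonneg _)] at h1
  refine h1.congr_fderiv ?_
  ext v
  simp
  field_simp

theorem laplacian_norm (h3 : Module.finrank ℝ E = 3) {x : E} (hx : x ≠ 0) :
    Δ (fun y : E => ‖y‖) x = 2 / ‖x‖ := by
  have hn : 0 < ‖x‖ := norm_pos_iff.2 hx
  have hpos : 0 < ‖x - 0‖ ^ 2 := by rw [sub_zero]; positivity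
  have h := laplacian_chain (f := fun y : E => ‖y - 0‖ ^ 2) (contDiff_normsq 0).contDiffAt
    (hasFDerivAt_normsq 0 x) (φ := fun t => √t) (φ' := fun t => 1 / (2 * √t))
    (φ'' := -(1 / (4 * ‖x‖ ^ 3))) ?_ ?_
  · simp only [sub_zero, Real.sqrt_sq (norm_nonneg _)] at h
    have h0 := laplacian_normsq (0 : E) x
    simp only [sub_zero] at h0
    rw [h, h0, h3, norm_smul]
    simp only [Real.norm_ofNat, Nat.cast_ofNat]
    field_simp
    ring
  · filter_upwards [lt_mem_nhds hpos] with t ht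
    exact Real.hasDerivAt_sqrt ht.ne'
  · have hs : √(‖x - 0‖ ^ 2) = ‖x‖ := by rw [sub_zero, Real.sqrt_sq hn.le]
    have := (hasDerivAt_const _ (1 : ℝ)).div ((Real.hasDerivAt_sqrt hpos.ne').const_mul 2)
      (by rw [hs]; positivity)
    refine this.congr_deriv ?_
    rw [hs]
    field_simp
    ring

/-- The potential of a ray with linear density, in dimension three. -/
theorem laplacian_spike (h3 : Module.finrank ℝ E = 3) (e : E) (he : ‖e‖ = 1) (b M : ℝ)
    (hM : 0 < M) {x : E} (hw : 0 < ‖x‖ - ⟪e, x⟫) :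
    ContDiffAt ℝ 2 (fun y : E => (⟪e, y⟫ + b) * Real.log ((‖y‖ - ⟪e, y⟫) / M) + ‖y‖) x ∧
    Δ (fun y : E => (⟪e, y⟫ + b) * Real.log ((‖y‖ - ⟪e, y⟫) / M) + ‖y‖) x = 0 := by
  have hx : x ≠ 0 := by rintro rfl; simp at hw
  have hn : 0 < ‖x‖ := norm_pos_iff.2 hx
  have cR : ContDiffAt ℝ 2 (fun y : E => ‖y‖) x := contDiffAt_norm ℝ hx
  have cz : ContDiffAt ℝ 2 (fun y : E => ⟪e, y⟫) x := (innerSL ℝ e).contDiff.contDiffAt
  have czb : ContDiffAt ℝ 2 (fun y : E => ⟪e, y⟫ + b) x := cz.add contDiffAt_const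
  have cw : ContDiffAt ℝ 2 (fun y : E => ‖y‖ - ⟪e, y⟫) x := cR.sub cz
  have cl : ContDiffAt ℝ 2 (fun y : E => Real.log ((‖y‖ - ⟪e, y⟫) / M)) x :=
    (cw.div_const M).log (div_pos hw hM).ne'
  have dz : HasFDerivAt (fun y : E => ⟪e, y⟫) (innerSL ℝ e) x := (innerSL ℝ e).hasFDerivAt
  have dw : HasFDerivAt (fun y : E => ‖y‖ - ⟪e, y⟫) (innerSL ℝ (‖x‖⁻¹ • x - e)) x := by
    rw [map_sub]
    exact (hasFDerivAt_norm' hx).sub dz
  have lz : Δ (fun y : E => ⟪e, y⟫ + b) x = 0 := laplacian_affine (innerSL ℝ e) b x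
  have lz0 : Δ (fun y : E => ⟪e, y⟫) x = 0 := by
    simpa using laplacian_affine (innerSL ℝ e) 0 x
  have lw : Δ (fun y : E => ‖y‖ - ⟪e, y⟫) x = 2 / ‖x‖ := by
    have := cR.laplacian_sub cz
    rw [lz0, laplacian_norm h3 hx, sub_zero] at this
    exact this
  have hlog : ∀ t : ℝ, 0 < t → HasDerivAt (fun t => Real.log (t / M)) t⁻¹ t := by
    intro t ht
    have := ((hasDerivAt_id t).div_const M).log (div_pos ht hM).ne'
    refine this.congr_deriv ?_
    simp only [id]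
    field_simp
  have nw : ‖‖x‖⁻¹ • x - e‖ ^ 2 = 2 * (‖x‖ - ⟪e, x⟫) / ‖x‖ := by
    rw [norm_sub_sq_real, norm_smul, inner_smul_left, he, real_inner_comm]
    simp
    field_simp
    ring
  have ll : Δ (fun y : E => Real.log ((‖y‖ - ⟪e, y⟫) / M)) x = 0 := by
    have h := laplacian_chain cw dw (φ := fun t => Real.log (t / M)) (φ' := fun t => t⁻¹)
      (φ'' := -((‖x‖ - ⟪e, x⟫) ^ 2)⁻¹) ?_ (hasDerivAt_inv hw.ne')
    · rw [h, lw, nw]
      field_simp
      ring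
    · filter_upwards [lt_mem_nhds hw] with t ht using hlog t ht
  have dl : HasFDerivAt (fun y : E => Real.log ((‖y‖ - ⟪e, y⟫) / M))
      (innerSL ℝ ((‖x‖ - ⟪e, x⟫)⁻¹ • (‖x‖⁻¹ • x - e))) x := by
    have := (hlog _ hw).comp_hasFDerivAt x dw
    refine this.congr_fderiv ?_
    ext v
    simp
  have lp := laplacian_prod czb cl (dz.add_const b) dl
  refine ⟨(czb.mul cl).add cR, ?_⟩
  have := (czb.mul cl).laplacian_add cR
  refine Eq.trans this ?_
  rw [lp, ll, lz, laplacian_norm h3 hx, inner_smul_right, inner_sub_right, inner_smul_right,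
    real_inner_self_eq_norm_sq, he]
  field_simp
  ring

end Pool.Agent.Lib.MP_770c06_an
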