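import Mathlib

open MeasureTheory Metric Filter Topology
open scoped ENNReal

namespace Pool.Agent.Lib.MP_770c06_an

/-- An open set `U` of `ℝⁿ` is linearly accessible if from every point outside `U` there starts
a closed half-line disjoint from `U`. -/
def LinearlyAccessible {n : ℕ} (U : Set (EuclideanSpace ℝ (Fin n))) : Prop :=
  IsOpen U ∧ ∀ y, y ∉ U → ∃ v : EuclideanSpace ℝ (Fin n), ‖v‖ = 1 ∧
    ∀ s : ℝ, 0 ≤ s → y + s • v ∉ U

/-- `u`, with values in `[0, ∞]`, is a positive superharmonic function on the domain `D`: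
positive, not identically infinite, lower semicontinuous, and at the centre of every closed ball
contained in `D` at least its mean over the boundary sphere (normalised surface measure). -/
def PosSuperharmonicOn {n : ℕ} (u : EuclideanSpace ℝ (Fin n) → ℝ≥0∞)
    (D : Set (EuclideanSpace ℝ (Fin n))) : Prop :=
  (∀ x ∈ D, 0 < u x) ∧ (∃ x ∈ D, u x ≠ ⊤) ∧ LowerSemicontinuousOn u D ∧
    ∀ (c : EuclideanSpace ℝ (Fin n)) (r : ℝ), 0 < r → closedBall c r ⊆ D →
      ⨍⁻ ω : sphere (0 : EuclideanSpace ℝ (Fin n)) 1,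
        u (c + r • (ω : EuclideanSpace ℝ (Fin n))) ∂(volume.toSphere) ≤ u c

/-- `u(x) - |x - x₀|^(2-n)` is harmonic near `x₀`: on a punctured neighbourhood of `x₀` it
equals a real function `h` that is harmonic in a neighbourhood of `x₀`. -/
def HasNewtonPole {n : ℕ} (u : EuclideanSpace ℝ (Fin n) → ℝ≥0∞)
    (x₀ : EuclideanSpace ℝ (Fin n)) : Prop :=
  ∃ h : EuclideanSpace ℝ (Fin n) → ℝ, InnerProductSpace.HarmonicAt h x₀ ∧
    ∀ᶠ x in 𝓝[≠] x₀, u x = ENNReal.ofReal (‖x - x₀‖ ^ ((2 : ℤ) - n) + h x)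

/-- `g` is the Green function of `D` with pole `x₀` (for `n ≥ 3`): the smallest positive
superharmonic function on `D` such that `g(x) - |x - x₀|^(2-n)` is harmonic near `x₀`. -/
def IsGreenFunction {n : ℕ} (D : Set (EuclideanSpace ℝ (Fin n)))
    (x₀ : EuclideanSpace ℝ (Fin n)) (g : EuclideanSpace ℝ (Fin n) → ℝ≥0∞) : Prop :=
  PosSuperharmonicOn g D ∧ HasNewtonPole g x₀ ∧
    ∀ u, PosSuperharmonicOn u D → HasNewtonPole u x₀ → ∀ x ∈ D, g x ≤ u x

end Pool.Agent.Lib.MP_770c06_an
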