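import Mathlib
import Pool.Agent.Lib.MP_770c06_an.Calc
import Pool.Agent.Lib.MP_770c06_an.Defs

/-! Recognising an explicit Green function in dimension three. -/

open MeasureTheory Metric Set Filter Topology InnerProductSpace Laplacian
open scoped RealInnerProductSpace ENNReal

namespace Pool.Agent.Lib.MP_770c06_an

abbrev V3 := EuclideanSpace ℝ (Fin 3)

theorem rank3 : Module.finrank ℝ V3 = 3 := by simp

open Classical in
/-- the candidate Green function -/
noncomputable def greenOf (p : V3) (H : V3 → ℝ) (x : V3) : ℝ≥0∞ :=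
  if x = p then ⊤ else ENNReal.ofReal (‖x - p‖⁻¹ + H x)

theorem greenOf_ne {p : V3} (H : V3 → ℝ) {x : V3} (hx : x ≠ p) :
    greenOf p H x = ENNReal.ofReal (‖x - p‖⁻¹ + H x) := by simp [greenOf, hx]

theorem greenOf_self (p : V3) (H : V3 → ℝ) : greenOf p H p = ⊤ := by simp [greenOf]

theorem newton_harm {p x : V3} (hx : x ≠ p) :
    ContDiffAt ℝ 2 (fun y : V3 => ‖y - p‖⁻¹) x ∧ Δ (fun y : V3 => ‖y - p‖⁻¹) x = 0 := by
  have hpos : 0 < ‖x - p‖ ^ 2 + 0 := by
    have : 0 < ‖x - p‖ := norm_pos_iff.2 (sub_ne_zero.2 hx)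
    positivity
  have h1 := contDiffAt_newton p x 0 hpos
  have h2 := laplacian_newton rank3 p x 0 hpos
  simp only [newton_zero] at h1 h2
  exact ⟨h1, by rw [h2]; simp⟩

theorem tendsto_inv_norm (p : V3) : Tendsto (fun x : V3 => ‖x - p‖⁻¹) (𝓝[≠] p) atTop := by
  apply tendsto_inv_nhdsGT_zero.comp
  rw [tendsto_nhdsWithin_iff]
  constructor
  · apply Tendsto.mono_left _ nhdsWithin_le_nhds
    have : Continuous fun x : V3 => ‖x - p‖ := by fun_prop
    simpa using this.tendsto p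
  · filter_upwards [self_mem_nhdsWithin] with x hx
    exact norm_pos_iff.2 (sub_ne_zero.2 hx)

theorem newton_reg_le {a ε : ℝ} (ha : 0 < a) (hε : 0 ≤ ε) :
    (a ^ 2 + ε) ^ (-(1 / 2) : ℝ) ≤ a⁻¹ := by
  have h : (a ^ 2) ^ (-(1 / 2) : ℝ) = a⁻¹ := by
    rw [Real.rpow_neg (by positivity), ← Real.sqrt_eq_rpow, Real.sqrt_sq ha.le]
  rw [← h]
  exact Real.rpow_le_rpow_of_nonpos (by positivity) (by linarith) (by norm_num)

section main

variable {p : V3} {H : V3 → ℝ} {D S : Set V3}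

theorem F_harm (hH : ∀ x ∈ D, ContDiffAt ℝ 2 H x ∧ Δ H x = 0) {x : V3} (hx : x ∈ D)
    (hxp : x ≠ p) (a b : ℝ) :
    ContDiffAt ℝ 2 (fun y => a * (‖y - p‖⁻¹ + H y) - b) x ∧
      Δ (fun y => a * (‖y - p‖⁻¹ + H y) - b) x = 0 := by
  have h1 := newton_harm hxp
  have h2 := hH x hx
  have h3 : ContDiffAt ℝ 2 (fun y => ‖y - p‖⁻¹ + H y) x := h1.1.add h2.1
  have h4 : Δ (fun y => ‖y - p‖⁻¹ + H y) x = 0 := by
    have := h1.1.laplacian_add h2.1
    rw [h1.2, h2.2, add_zero] at this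
    exact this
  have h5 : ContDiffAt ℝ 2 (fun y => a * (‖y - p‖⁻¹ + H y)) x := contDiffAt_const.mul h3
  have h6 : Δ (fun y => a * (‖y - p‖⁻¹ + H y)) x = 0 := by
    have := laplacian_smul a h3
    rw [h4, smul_zero] at this
    exact this
  refine ⟨h5.sub contDiffAt_const, ?_⟩
  have := h5.laplacian_sub (f₂ := fun _ => b) contDiffAt_const
  rw [h6, laplacian_const, Pi.zero_apply, sub_zero] at this
  exact this

theorem green_lsc (hp : p ∈ D) (hH : ∀ x ∈ D, ContDiffAt ℝ 2 H x ∧ Δ H x = 0) :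
    LowerSemicontinuousOn (greenOf p H) D := by
  intro x hx
  apply LowerSemicontinuousAt.lowerSemicontinuousWithinAt
  by_cases hxp : x = p
  · subst hxp
    intro y hy
    have h1 : Tendsto (fun z : V3 => ‖z - x‖⁻¹ + H z) (𝓝[≠] x) atTop :=
      (tendsto_inv_norm x).atTop_add
        ((hH x hx).1.continuousAt.tendsto.mono_left nhdsWithin_le_nhds)
    have h2 := ENNReal.tendsto_ofReal_atTop.comp h1
    rw [greenOf_self] at hy
    have h3 := h2.eventually (lt_mem_nhds hy)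
    rw [eventually_nhdsWithin_iff] at h3
    filter_upwards [h3] with z hz
    by_cases hzx : z = x
    · rw [hzx, greenOf_self]; exact hy
    · rw [greenOf_ne H hzx]; exact hz hzx
  · apply ContinuousAt.lowerSemicontinuousAt
    have h1 : ContinuousAt (fun z : V3 => ENNReal.ofReal (‖z - p‖⁻¹ + H z)) x :=
      ENNReal.continuous_ofReal.continuousAt.comp
        ((newton_harm hxp).1.continuousAt.add (hH x hx).1.continuousAt)
    refine h1.congr ?_
    filter_upwards [isOpen_ne.mem_nhds hxp] with z hz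
    exact (greenOf_ne H hz).symm

theorem green_mean (hH : ∀ x ∈ D, ContDiffAt ℝ 2 H x ∧ Δ H x = 0)
    (hpos : ∀ x ∈ D, x ≠ p → 0 < ‖x - p‖⁻¹ + H x) (c : V3) (r : ℝ) (hr : 0 < r)
    (hb : closedBall c r ⊆ D) :
    ⨍⁻ ω : sphere (0 : V3) 1, greenOf p H (c + r • (ω : V3)) ∂(volume.toSphere) ≤
      greenOf p H c := by
  by_cases hcp : c = p
  · rw [hcp, greenOf_self]; exact le_top
  set σ : Measure (sphere (0 : V3) 1) := volume.toSphere with hσ
  have hHc : ContinuousOn H (closedBall c r) := fun x hx =>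
    (hH x (hb hx)).1.continuousAt.continuousWithinAt
  obtain ⟨A, hA0, hA⟩ : ∃ A : ℝ, 0 ≤ A ∧ ∀ x ∈ closedBall c r, 0 ≤ H x + A := by
    obtain ⟨B, hB⟩ := (isCompact_closedBall c r).bddBelow_image hHc
    refine ⟨|B|, abs_nonneg _, fun x hx => ?_⟩
    have := hB ⟨x, hx, rfl⟩
    linarith [neg_abs_le B]
  let u : ℕ → V3 → ℝ := fun k y =>
    (‖y - p‖ ^ 2 + 1 / ((k : ℝ) + 1)) ^ (-(1 / 2) : ℝ) + (H y + A)
  have hk : ∀ (k : ℕ) (y : V3), 0 < ‖y - p‖ ^ 2 + 1 / ((k : ℝ) + 1) := fun k y => by positivity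
  have hu1 : ∀ k, ∀ y ∈ closedBall c r, ContDiffAt ℝ 2 (u k) y := fun k y hy =>
    (contDiffAt_newton p y _ (hk k y)).add ((hH y (hb hy)).1.add contDiffAt_const)
  have hu2 : ∀ k, ∀ y ∈ closedBall c r, Δ (u k) y ≤ 0 := by
    intro k y hy
    have h1 := (contDiffAt_newton p y _ (hk k y)).laplacian_add
      ((hH y (hb hy)).1.add (contDiffAt_const (c := A)))
    have h2 := (hH y (hb hy)).1.laplacian_add (f₂ := fun _ => A) contDiffAt_const
    rw [(hH y (hb hy)).2, laplacian_const, Pi.zero_apply, add_zero] at h2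
    have h3 : Δ (fun x => H x + A) y = 0 := h2
    rw [h3, laplacian_newton rank3 p y _ (hk k y), add_zero] at h1
    refine le_of_eq_of_le h1 ?_
    have : 0 ≤ 3 * (1 / ((k : ℝ) + 1)) * (‖y - p‖ ^ 2 + 1 / ((k : ℝ) + 1)) ^ (-(5 / 2) : ℝ) := by
      have := hk k y
      positivity
    linarith
  have hu0 : ∀ k, ∀ y ∈ closedBall c r, 0 ≤ u k y := fun k y hy =>
    add_nonneg (Real.rpow_nonneg (hk k y).le _) (hA y hy)
  have huc : ∀ k, Continuous fun ω : sphere (0 : V3) 1 => u k (c + r • (ω : V3)) := by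
    intro k
    have h : ContinuousOn (u k) (closedBall c r) := fun x hx =>
      (hu1 k x hx).continuousAt.continuousWithinAt
    exact h.comp_continuous (by fun_prop) (sphere_mem c hr)
  have hσ0 : 0 < σ.real univ := toSphere_real_pos volume
  have hσe : σ univ = ENNReal.ofReal (σ.real univ) := by
    rw [measureReal_def, ENNReal.ofReal_toReal (measure_ne_top _ _)]
  have hc0 : 0 < ‖c - p‖ := norm_pos_iff.2 (sub_ne_zero.2 hcp)
  have hcD : c ∈ D := hb (mem_closedBall_self hr.le)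
  have hbound : ∀ k, ∫⁻ ω : sphere (0 : V3) 1, ENNReal.ofReal (u k (c + r • (ω : V3))) ∂σ ≤
      σ univ * greenOf p H c + σ univ * ENNReal.ofReal A := by
    intro k
    rw [← ofReal_integral_eq_lintegral_ofReal
      ((huc k).integrable_of_hasCompactSupport (HasCompactSupport.of_compactSpace _))
      (Eventually.of_forall fun ω => hu0 k _ (sphere_mem c hr ω)), ← mul_add, greenOf_ne H hcp,
      ← ENNReal.ofReal_add (hpos c hcD hcp).le hA0, hσe, ← ENNReal.ofReal_mul hσ0.le]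
    apply ENNReal.ofReal_le_ofReal
    refine (sphere_integral_le volume (u k) c r hr (hu1 k) (hu2 k)).trans ?_
    apply mul_le_mul_of_nonneg_left _ hσ0.le
    have := newton_reg_le hc0 (ε := 1 / ((k : ℝ) + 1)) (by positivity)
    simp only [u]
    linarith
  have hlim : ∀ y ∈ closedBall c r, Tendsto (fun k => ENNReal.ofReal (u k y)) atTop
      (𝓝 (greenOf p H y + ENNReal.ofReal A)) := by
    intro y hy
    by_cases hyp : y = p
    · rw [hyp, greenOf_self, top_add]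
      apply ENNReal.tendsto_ofReal_atTop.comp
      apply Tendsto.atTop_add _ tendsto_const_nhds
      have h1 : Tendsto (fun k : ℕ => ((k : ℝ) + 1) ^ (1 / 2 : ℝ)) atTop atTop :=
        (tendsto_rpow_atTop (by norm_num)).comp
          (tendsto_natCast_atTop_atTop.atTop_add tendsto_const_nhds)
      refine h1.congr fun k => ?_
      simp only [sub_self, norm_zero]
      rw [zero_pow two_ne_zero, zero_add, one_div ((k : ℝ) + 1),
        Real.inv_rpow (by positivity), Real.rpow_neg (by positivity), inv_inv]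
    · rw [greenOf_ne H hyp, ← ENNReal.ofReal_add (hpos y (hb hy) hyp).le hA0]
      apply ENNReal.tendsto_ofReal
      rw [add_assoc, ← newton_zero]
      apply Tendsto.add_const
      have h0 : 0 < ‖y - p‖ := norm_pos_iff.2 (sub_ne_zero.2 hyp)
      refine Tendsto.rpow_const ?_ (Or.inl (by positivity))
      exact tendsto_one_div_add_atTop_nhds_zero_nat.const_add _
  have hfatou : ∫⁻ ω : sphere (0 : V3) 1,
      (greenOf p H (c + r • (ω : V3)) + ENNReal.ofReal A) ∂σ ≤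
      σ univ * greenOf p H c + σ univ * ENNReal.ofReal A := by
    have h1 : ∀ ω : sphere (0 : V3) 1, greenOf p H (c + r • (ω : V3)) + ENNReal.ofReal A =
        liminf (fun k => ENNReal.ofReal (u k (c + r • (ω : V3)))) atTop := fun ω =>
      (hlim _ (sphere_mem c hr ω)).liminf_eq.symm
    simp only [h1]
    refine (lintegral_liminf_le fun k => (huc k).measurable.ennreal_ofReal).trans ?_
    exact liminf_le_of_frequently_le' (Frequently.of_forall hbound)
  rw [lintegral_add_right _ measurable_const, lintegral_const, mul_comm (ENNReal.ofReal A),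
    ENNReal.add_le_add_iff_right
      (ENNReal.mul_ne_top (measure_ne_top _ _) ENNReal.ofReal_ne_top)] at hfatou
  rw [laverage_eq]
  apply ENNReal.div_le_of_le_mul
  rwa [mul_comm]

theorem exists_ne_mem (hD : IsOpen D) (hp : p ∈ D) : ∃ x ∈ D, x ≠ p := by
  have : ∀ᶠ x in 𝓝[≠] p, x ∈ D ∧ x ≠ p := by
    filter_upwards [mem_nhdsWithin_of_mem_nhds (hD.mem_nhds hp), self_mem_nhdsWithin]
      with x h1 h2 using ⟨h1, h2⟩
  exact this.exists

theorem compact_piece (hS : IsCompact S) (hHS : ContinuousOn H S) {U : Set V3} (hU : IsOpen U)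
    (hpU : p ∈ U) (a b : ℝ) :
    IsCompact {x | x ∈ S ∧ x ∉ U ∧ 0 ≤ a * (‖x - p‖⁻¹ + H x) - b} ∧
    ContinuousOn (fun x => a * (‖x - p‖⁻¹ + H x) - b)
      {x | x ∈ S ∧ x ∉ U ∧ 0 ≤ a * (‖x - p‖⁻¹ + H x) - b} := by
  have h1 : IsCompact (S \ U) := hS.diff hU
  have h2 : ContinuousOn (fun x => a * (‖x - p‖⁻¹ + H x) - b) (S \ U) := by
    refine (continuousOn_const.mul (ContinuousOn.add ?_ (hHS.mono sdiff_subset))).sub
      continuousOn_const
    refine ContinuousOn.inv₀ (by fun_prop) fun x hx => ?_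
    rw [norm_ne_zero_iff, sub_ne_zero]
    rintro rfl
    exact hx.2 hpU
  have h3 := h2.preimage_isClosed_of_isClosed h1.isClosed (isClosed_Ici (a := (0 : ℝ)))
  have h4 : {x | x ∈ S ∧ x ∉ U ∧ 0 ≤ a * (‖x - p‖⁻¹ + H x) - b} =
      (S \ U) ∩ (fun x => a * (‖x - p‖⁻¹ + H x) - b) ⁻¹' Ici 0 := by
    ext x
    exact ⟨fun h => ⟨⟨h.1, h.2.1⟩, h.2.2⟩, fun h => ⟨h.1.1, h.1.2, h.2⟩⟩
  rw [h4]
  exact ⟨h1.of_isClosed_subset h3 inter_subset_left, h2.mono inter_subset_left⟩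

theorem green_min (hD : IsOpen D) (hp : p ∈ D) (hH : ∀ x ∈ D, ContDiffAt ℝ 2 H x ∧ Δ H x = 0)
    (hS : IsCompact S) (hHS : ContinuousOn H S) (hDS : ∀ x ∈ D, S ∈ 𝓝 x)
    (hSD : ∀ x ∈ S, x ≠ p → 0 < ‖x - p‖⁻¹ + H x → x ∈ D)
    (u : V3 → ℝ≥0∞) (hu : PosSuperharmonicOn u D) (hpole : HasNewtonPole u p) :
    ∀ x ∈ D, greenOf p H x ≤ u x := by
  obtain ⟨h, hh, hev⟩ := hpole
  have hz : ((2 : ℤ) - ((3 : ℕ) : ℤ)) = -1 := by norm_num
  simp only [hz, zpow_neg_one] at hev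
  have main : ∀ x ∈ D, x ≠ p → ∀ ε : ℝ, 0 < ε → ε < 1 →
      ENNReal.ofReal ((1 - ε) * (‖x - p‖⁻¹ + H x) - ε) ≤ u x := by
    intro x hx hxp ε hε hε1
    have h1 : Tendsto (fun y : V3 => ε * ‖y - p‖⁻¹ + (h y - (1 - ε) * H y)) (𝓝[≠] p) atTop :=
      ((tendsto_inv_norm p).const_mul_atTop hε).atTop_add
        ((hh.1.continuousAt.sub (continuousAt_const.mul (hH p hp).1.continuousAt)).tendsto.mono_left
          nhdsWithin_le_nhds)
    have h2 : ∀ᶠ y in 𝓝[≠] p,
        ENNReal.ofReal ((1 - ε) * (‖y - p‖⁻¹ + H y) - ε) ≤ u y := by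
      filter_upwards [h1.eventually_ge_atTop 0, hev] with y hy1 hy2
      rw [hy2]
      apply ENNReal.ofReal_le_ofReal
      nlinarith
    rw [eventually_nhdsWithin_iff] at h2
    have h3 : ∀ᶠ y in 𝓝 p, y ≠ x := isOpen_ne.mem_nhds (Ne.symm hxp)
    obtain ⟨δ, hδ, hball⟩ := Metric.nhds_basis_closedBall.mem_iff.1 (h2.and h3)
    obtain ⟨hK, hKc⟩ := compact_piece (p := p) hS hHS (isOpen_ball (x := p) (ε := δ))
      (mem_ball_self hδ) (1 - ε) ε
    set K := {x | x ∈ S ∧ x ∉ ball p δ ∧ 0 ≤ (1 - ε) * (‖x - p‖⁻¹ + H x) - ε} with hKdef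
    have hKp : ∀ y ∈ K, y ≠ p := by
      rintro y hy rfl
      exact hy.2.1 (mem_ball_self hδ)
    have hKD : K ⊆ D := by
      intro y hy
      apply hSD y hy.1 (hKp y hy)
      have := hy.2.2
      by_contra hn
      nlinarith
    rcases le_total ((1 - ε) * (‖x - p‖⁻¹ + H x) - ε) 0 with h0 | h0
    · simp [ENNReal.ofReal_of_nonpos h0]
    refine comparison volume D u hu.2.2.1 hu.2.2.2 K hK hKD _ hKc ?_ x
      ⟨mem_of_mem_nhds (hDS x hx), fun hb => (hball (ball_subset_closedBall hb)).2 rfl, h0⟩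
    intro y hy
    by_cases hb : y ∈ closedBall p δ
    · exact Or.inl ((hball hb).1 (hKp y hy))
    rcases eq_or_lt_of_le hy.2.2 with h4 | h4
    · left; rw [← h4]; simp
    right
    have hyD := hKD hy
    have e1 : ∀ᶠ z in 𝓝 y, z ∉ closedBall p δ := isClosed_closedBall.isOpen_compl.mem_nhds hb
    constructor
    · filter_upwards [hDS y hyD, e1,
        (F_harm hH hyD (hKp y hy) (1 - ε) ε).1.continuousAt.eventually (lt_mem_nhds h4)]
        with z hz1 hz2 hz3
      exact ⟨hz1, fun hb => hz2 (ball_subset_closedBall hb), hz3.le⟩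
    · filter_upwards [hD.mem_nhds hyD, isOpen_ne.mem_nhds (hKp y hy)] with z hz1 hz2
      exact ⟨(F_harm hH hz1 hz2 _ _).1, (F_harm hH hz1 hz2 _ _).2.ge⟩
  have main2 : ∀ x ∈ D, x ≠ p → greenOf p H x ≤ u x := by
    intro x hx hxp
    rw [greenOf_ne H hxp]
    have hlim : Tendsto (fun ε : ℝ => ENNReal.ofReal ((1 - ε) * (‖x - p‖⁻¹ + H x) - ε)) (𝓝[>] 0)
        (𝓝 (ENNReal.ofReal (‖x - p‖⁻¹ + H x))) := by
      apply ENNReal.tendsto_ofReal
      apply Tendsto.mono_left _ nhdsWithin_le_nhds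
      have : Continuous fun ε : ℝ => (1 - ε) * (‖x - p‖⁻¹ + H x) - ε := by fun_prop
      simpa using this.tendsto 0
    refine le_of_tendsto hlim ?_
    filter_upwards [Ioo_mem_nhdsGT (zero_lt_one' ℝ)] with ε hε using main x hx hxp ε hε.1 hε.2
  intro x hx
  by_cases hxp : x = p
  swap
  · exact main2 x hx hxp
  subst hxp
  rw [greenOf_self, top_le_iff]
  apply ENNReal.eq_top_of_forall_nnreal_le
  intro m
  have h1 : Tendsto (fun z : V3 => ‖z - x‖⁻¹ + h z) (𝓝[≠] x) atTop :=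
    (tendsto_inv_norm x).atTop_add (hh.1.continuousAt.tendsto.mono_left nhdsWithin_le_nhds)
  have h2 : ∀ᶠ y in 𝓝[≠] x, (m : ℝ≥0∞) ≤ u y := by
    filter_upwards [h1.eventually_ge_atTop m, hev] with y hy1 hy2
    rw [hy2, ← ENNReal.ofReal_coe_nnreal]
    exact ENNReal.ofReal_le_ofReal hy1
  rw [eventually_nhdsWithin_iff] at h2
  obtain ⟨δ, hδ, hball⟩ := Metric.nhds_basis_closedBall.mem_iff.1 (h2.and (hD.mem_nhds hp))
  refine le_trans ?_ (hu.2.2.2 x δ hδ fun y hy => (hball hy).2)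
  have : NeZero (volume.toSphere : Measure (sphere (0 : V3) 1)) :=
    ⟨Measure.toSphere_ne_zero volume⟩
  rw [← laverage_const (volume.toSphere : Measure (sphere (0 : V3) 1)) (m : ℝ≥0∞)]
  apply lintegral_mono
  intro ω
  apply (hball (sphere_mem x hδ ω)).1
  have hω : (ω : V3) ≠ 0 := ne_of_mem_sphere ω.2 one_ne_zero
  simp [hδ.ne', hω]

theorem green_connected (hD : IsOpen D) (hp : p ∈ D)
    (hH : ∀ x ∈ D, ContDiffAt ℝ 2 H x ∧ Δ H x = 0)
    (hpos : ∀ x ∈ D, x ≠ p → 0 < ‖x - p‖⁻¹ + H x)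
    (hS : IsCompact S) (hHS : ContinuousOn H S) (hDS : ∀ x ∈ D, S ∈ 𝓝 x)
    (hSD : ∀ x ∈ S, x ≠ p → 0 < ‖x - p‖⁻¹ + H x → x ∈ D) : IsConnected D := by
  have key : ∀ U W : Set V3, IsOpen U → IsOpen W → D ⊆ U ∪ W → D ∩ (U ∩ W) = ∅ → p ∈ U →
      D ⊆ U := by
    intro U W hU hW hcov hdis hpU x hx
    by_contra hxU
    have hxp : x ≠ p := by rintro rfl; exact hxU hpU
    have hF := hpos x hx hxp
    set η := (‖x - p‖⁻¹ + H x) / 2 with hη
    have hη0 : 0 < η := by positivity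
    obtain ⟨hK, hKc⟩ := compact_piece (p := p) hS hHS hU hpU 1 η
    set K := {x | x ∈ S ∧ x ∉ U ∧ 0 ≤ 1 * (‖x - p‖⁻¹ + H x) - η} with hKdef
    have hKp : ∀ y ∈ K, y ≠ p := by
      rintro y hy rfl
      exact hy.2.1 hpU
    have hKD : K ⊆ D := by
      intro y hy
      apply hSD y hy.1 (hKp y hy)
      have := hy.2.2
      linarith
    have := comparison volume D (fun _ => 0) lowerSemicontinuousOn_const (by simp) K hK hKD _ hKc
      ?_ x ⟨mem_of_mem_nhds (hDS x hx), hxU, by linarith⟩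
    · rw [nonpos_iff_eq_zero, ENNReal.ofReal_eq_zero] at this
      linarith
    intro y hy
    rcases eq_or_lt_of_le hy.2.2 with h4 | h4
    · left; rw [← h4]; simp
    right
    have hyD := hKD hy
    have hyW : y ∈ W := (hcov hyD).resolve_left hy.2.1
    constructor
    · filter_upwards [hDS y hyD, hD.mem_nhds hyD, hW.mem_nhds hyW,
        (F_harm hH hyD (hKp y hy) 1 η).1.continuousAt.eventually (lt_mem_nhds h4)]
        with z hz1 hz2 hz3 hz4
      refine ⟨hz1, fun hb => ?_, hz4.le⟩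
      have : z ∈ D ∩ (U ∩ W) := ⟨hz2, hb, hz3⟩
      rw [hdis] at this
      exact this
    · filter_upwards [hD.mem_nhds hyD, isOpen_ne.mem_nhds (hKp y hy)] with z hz1 hz2
      exact ⟨(F_harm hH hz1 hz2 _ _).1, (F_harm hH hz1 hz2 _ _).2.ge⟩
  refine ⟨⟨p, hp⟩, isPreconnected_iff_subset_of_disjoint.2 fun U W hU hW hcov hdis => ?_⟩
  rcases hcov hp with h | h
  · exact Or.inl (key U W hU hW hcov hdis h)
  · exact Or.inr (key W U hW hU (by rwa [union_comm]) (by rwa [inter_comm W U]) h)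

theorem green_isGreen (hD : IsOpen D) (hp : p ∈ D)
    (hH : ∀ x ∈ D, ContDiffAt ℝ 2 H x ∧ Δ H x = 0)
    (hpos : ∀ x ∈ D, x ≠ p → 0 < ‖x - p‖⁻¹ + H x)
    (hS : IsCompact S) (hHS : ContinuousOn H S) (hDS : ∀ x ∈ D, S ∈ 𝓝 x)
    (hSD : ∀ x ∈ S, x ≠ p → 0 < ‖x - p‖⁻¹ + H x → x ∈ D) :
    IsGreenFunction D p (greenOf p H) := by
  refine ⟨⟨fun x hx => ?_, ?_, green_lsc hp hH, green_mean hH hpos⟩, ⟨H, ⟨(hH p hp).1, ?_⟩, ?_⟩,
    green_min hD hp hH hS hHS hDS hSD⟩
  · by_cases hxp : x = p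
    · rw [hxp, greenOf_self]; exact ENNReal.zero_lt_top
    · rw [greenOf_ne H hxp]; exact ENNReal.ofReal_pos.2 (hpos x hx hxp)
  · obtain ⟨x, hx, hxp⟩ := exists_ne_mem hD hp
    exact ⟨x, hx, by rw [greenOf_ne H hxp]; exact ENNReal.ofReal_ne_top⟩
  · filter_upwards [hD.mem_nhds hp] with x hx using (hH x hx).2
  · filter_upwards [self_mem_nhdsWithin] with x hx
    have hz : ((2 : ℤ) - ((3 : ℕ) : ℤ)) = -1 := by norm_num
    rw [greenOf_ne H hx, hz, zpow_neg_one]

end main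

end Pool.Agent.Lib.MP_770c06_an
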