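import Mathlib
import Pool.Agent.Lib.MP_770c06_an.Green

/-! The explicit example: a ball with a thin spike removed. -/

open Metric Set Filter Topology InnerProductSpace Laplacian
open scoped RealInnerProductSpace ENNReal

namespace Pool.Agent.Lib.MP_770c06_an

/-- vertical unit vector -/
noncomputable def ev : V3 := EuclideanSpace.single 2 1
/-- the pole -/
noncomputable def pole : V3 := !₂[3, 0, 4]
/-- `|x| - z` -/
noncomputable def wf (x : V3) : ℝ := ‖x‖ - x 2
/-- the harmonic part -/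
noncomputable def Hf (x : V3) : ℝ :=
  -(1 / 25) + 1 / 100000 * ((x 2 + 1) * Real.log (wf x / 200) + ‖x‖)
/-- the domain -/
def Dom : Set V3 := {x | ‖x - pole‖ < 29 ∧ 0 < wf x ∧ 0 < 1 + ‖x - pole‖ * Hf x}

theorem inner_ev (x : V3) : ⟪ev, x⟫ = x 2 := by
  simp [ev, EuclideanSpace.inner_single_left]

theorem norm_ev : ‖ev‖ = 1 := by simp [ev]

theorem normsq3 (x : V3) : ‖x‖ ^ 2 = x 0 ^ 2 + x 1 ^ 2 + x 2 ^ 2 := by
  rw [EuclideanSpace.real_norm_sq_eq, Fin.sum_univ_three]

theorem rho_sq (x : V3) : ‖x - pole‖ ^ 2 = (x 0 - 3) ^ 2 + x 1 ^ 2 + (x 2 - 4) ^ 2 := by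
  rw [normsq3]
  simp [pole]

theorem norm_pole : ‖pole‖ = 5 := by
  have h : ‖pole‖ ^ 2 = 5 ^ 2 := by
    rw [normsq3]; simp [pole]; norm_num
  exact (pow_left_inj₀ (norm_nonneg _) (by norm_num) two_ne_zero).1 h

theorem abs_coord_le (x : V3) (i : Fin 3) : |x i| ≤ ‖x‖ := by
  simpa using PiLp.norm_apply_le x i

theorem wf_nonneg (x : V3) : 0 ≤ wf x := by
  have := abs_le.1 (abs_coord_le x 2)
  simp only [wf]; linarith

theorem norm_le_rho (x : V3) : ‖x‖ ≤ ‖x - pole‖ + 5 := by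
  have := norm_add_le (x - pole) pole
  rw [sub_add_cancel, norm_pole] at this
  exact this

theorem rho_le_norm (x : V3) : ‖x - pole‖ ≤ ‖x‖ + 5 := by
  have := norm_sub_le x pole
  rwa [norm_pole] at this

theorem wf_le {x : V3} (h : ‖x - pole‖ ≤ 29) : wf x ≤ 68 := by
  have := abs_le.1 (abs_coord_le x 2)
  have := norm_le_rho x
  simp only [wf]; linarith

theorem log_wf_le {a : ℝ} (h0 : 0 < a) (h : a ≤ 68) : Real.log (a / 200) ≤ -1 := by
  rw [Real.log_le_iff_le_exp (by positivity)]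
  have := Real.exp_neg_one_gt_d9
  linarith

theorem horiz (x : V3) : x 0 ^ 2 + x 1 ^ 2 = wf x * (wf x + 2 * x 2) := by
  have := normsq3 x
  simp only [wf]; nlinarith

theorem up_0 (x : V3) (s : ℝ) : (x + s • ev) 0 = x 0 := by simp [ev]
theorem up_1 (x : V3) (s : ℝ) : (x + s • ev) 1 = x 1 := by simp [ev]
theorem up_2 (x : V3) (s : ℝ) : (x + s • ev) 2 = x 2 + s := by simp [ev]

theorem up_norm (x : V3) {s : ℝ} (hs : 0 ≤ s) : ‖x + s • ev‖ ≤ ‖x‖ + s := by
  have := norm_add_le x (s • ev)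
  rwa [norm_smul, norm_ev, mul_one, Real.norm_of_nonneg hs] at this

theorem up_wf (x : V3) {s : ℝ} (hs : 0 ≤ s) : wf (x + s • ev) ≤ wf x := by
  have := up_norm x hs
  simp only [wf, up_2]; linarith

theorem Hf_harm {x : V3} (hw : 0 < wf x) : ContDiffAt ℝ 2 Hf x ∧ Δ Hf x = 0 := by
  have h := laplacian_spike rank3 ev norm_ev 1 200 (by norm_num) (x := x)
    (by rw [inner_ev]; exact hw)
  simp only [inner_ev] at h
  have h1 : ContDiffAt ℝ 2 (fun y : V3 => (1 / 100000 : ℝ) *
      ((y 2 + 1) * Real.log ((‖y‖ - y 2) / 200) + ‖y‖)) x := contDiffAt_const.mul h.1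
  have h2 := laplacian_smul (1 / 100000 : ℝ) h.1
  rw [h.2, smul_zero] at h2
  refine ⟨contDiffAt_const.add h1, ?_⟩
  have h3 := (contDiffAt_const (c := -(1 / 25 : ℝ)) (x := x)).laplacian_add h1
  rw [laplacian_const, Pi.zero_apply, zero_add] at h3
  exact h3.trans h2

theorem continuous_wf : Continuous wf := by
  unfold wf; fun_prop

theorem isOpen_Dom : IsOpen Dom := by
  rw [isOpen_iff_mem_nhds]
  intro x hx
  have c1 : Continuous fun y : V3 => ‖y - pole‖ := by fun_prop
  have c2 : ContinuousAt (fun y : V3 => 1 + ‖y - pole‖ * Hf y) x :=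
    continuousAt_const.add (c1.continuousAt.mul (Hf_harm hx.2.1).1.continuousAt)
  filter_upwards [c1.continuousAt.eventually (gt_mem_nhds hx.1),
    continuous_wf.continuousAt.eventually (lt_mem_nhds hx.2.1),
    c2.eventually (lt_mem_nhds hx.2.2)] with y h1 h2 h3 using ⟨h1, h2, h3⟩

theorem pole_mem : pole ∈ Dom := by
  refine ⟨by simp, ?_, by simp⟩
  simp only [wf, norm_pole]
  simp [pole]
  norm_num

theorem F_pos_iff {x : V3} (hx : x ≠ pole) :
    0 < 1 + ‖x - pole‖ * Hf x ↔ 0 < ‖x - pole‖⁻¹ + Hf x := by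
  have h : 0 < ‖x - pole‖ := norm_pos_iff.2 (sub_ne_zero.2 hx)
  have : ‖x - pole‖⁻¹ + Hf x = (1 + ‖x - pole‖ * Hf x) / ‖x - pole‖ := by field_simp
  rw [this, div_pos_iff_of_pos_right h]

theorem F_pos {x : V3} (hx : x ∈ Dom) (hp : x ≠ pole) : 0 < ‖x - pole‖⁻¹ + Hf x :=
  (F_pos_iff hp).1 hx.2.2

theorem neg_log_le {a : ℝ} (ha : 0 < a) : -Real.log (a / 200) ≤ 200 / a := by
  have := Real.log_le_sub_one_of_pos (x := 200 / a) (by positivity)
  rw [← Real.log_inv, inv_div]
  linarith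

/-- on the bounding sphere the function is negative -/
theorem F_neg_sphere {x : V3} (hw : 0 < wf x) (h : ‖x - pole‖ = 29) :
    ‖x - pole‖⁻¹ + Hf x ≤ 0 := by
  have h1 := log_wf_le hw (wf_le h.le)
  have h2 := norm_le_rho x
  have h3 := rho_le_norm x
  have h4 := abs_le.1 (abs_coord_le x 2)
  rw [h] at h2 h3 ⊢
  have key : (x 2 + 1) * Real.log (wf x / 200) ≤ 400 := by
    rcases le_total 0 (x 2 + 1) with h5 | h5
    · nlinarith
    · have h6 : 25 ≤ wf x := by simp only [wf]; linarith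
      have h7 := neg_log_le hw
      have h8 : 200 / wf x ≤ 8 := by rw [div_le_iff₀ hw]; linarith
      nlinarith
  simp only [Hf]
  norm_num
  linarith

theorem rho_ge_of_tube {x : V3} (h : ‖x - pole‖ ≤ 29) (hw : wf x ≤ 1 / 1000) :
    27 / 10 ≤ ‖x - pole‖ := by
  have h1 := horiz x
  have h2 := wf_nonneg x
  have h3 := norm_le_rho x
  have h4 := abs_le.1 (abs_coord_le x 2)
  have h5 : x 0 ^ 2 ≤ (3 / 10) ^ 2 := by nlinarith [sq_nonneg (x 1)]
  have h6 := abs_le_of_sq_le_sq' h5 (by norm_num)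
  refine le_of_sq_le_sq ?_ (norm_nonneg _)
  rw [rho_sq]
  nlinarith [sq_nonneg (x 1), sq_nonneg (x 2 - 4)]

theorem z_ge (x : V3) : -(wf x / 2) ≤ x 2 := by
  have h4 := abs_le.1 (abs_coord_le x 2)
  simp only [wf]; linarith

/-- lower bound for `wf` on the domain -/
theorem wf_gt {x : V3} (hx : x ∈ Dom) : 200 * Real.exp (-100000) < wf x := by
  have hw := hx.2.1
  rcases lt_or_ge (1 / 1000) (wf x) with h | h
  · refine lt_of_le_of_lt ?_ h
    have h1 : Real.exp (-100000) = (Real.exp 50000 ^ 2)⁻¹ := by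
      rw [← Real.exp_nat_mul, ← Real.exp_neg]; norm_num
    have h2 := Real.add_one_le_exp 50000
    have h3 : (200000 : ℝ) ≤ Real.exp 50000 ^ 2 := by nlinarith
    rw [h1, ← div_eq_mul_inv, div_le_iff₀ (by positivity)]
    linarith
  have h1 := rho_ge_of_tube hx.1.le h
  have hp : x ≠ pole := by
    rintro rfl
    simp at h1
    linarith
  have h2 := F_pos hx hp
  have h3 : ‖x - pole‖⁻¹ ≤ 10 / 27 := by
    rw [inv_le_comm₀ (by linarith) (by norm_num)]
    linarith
  have h4 := z_ge x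
  have h5 := norm_le_rho x
  have h6 := log_wf_le hw (wf_le hx.1.le)
  have h7 := hx.1
  have h8 : -100000 < Real.log (wf x / 200) := by
    by_contra hn
    rw [not_lt] at hn
    have : (x 2 + 1) * Real.log (wf x / 200) ≤ -50000 := by nlinarith
    simp only [Hf] at h2
    linarith
  have := (Real.lt_log_iff_exp_lt (by positivity)).1 h8
  linarith

/-- a compact set containing a neighbourhood of the domain -/
def Sset : Set V3 := {x | ‖x - pole‖ ≤ 29 ∧ 200 * Real.exp (-100000) ≤ wf x}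

theorem Sset_pos {x : V3} (hx : x ∈ Sset) : 0 < wf x := lt_of_lt_of_le (by positivity) hx.2

theorem isCompact_Sset : IsCompact Sset := by
  refine (isCompact_closedBall pole 29).of_isClosed_subset ?_ ?_
  · have c1 : Continuous fun y : V3 => ‖y - pole‖ := by fun_prop
    exact (isClosed_le c1 continuous_const).inter (isClosed_le continuous_const continuous_wf)
  · intro x hx
    rw [mem_closedBall, dist_eq_norm]
    exact hx.1

theorem Sset_nhds {x : V3} (hx : x ∈ Dom) : Sset ∈ 𝓝 x := by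
  have c1 : Continuous fun y : V3 => ‖y - pole‖ := by fun_prop
  filter_upwards [c1.continuousAt.eventually (gt_mem_nhds hx.1),
    continuous_wf.continuousAt.eventually (lt_mem_nhds (wf_gt hx))] with y h1 h2
    using ⟨h1.le, h2.le⟩

theorem Sset_Dom {x : V3} (hx : x ∈ Sset) (hp : x ≠ pole) (h : 0 < ‖x - pole‖⁻¹ + Hf x) :
    x ∈ Dom := by
  refine ⟨lt_of_le_of_ne hx.1 fun h1 => ?_, Sset_pos hx, (F_pos_iff hp).2 h⟩
  linarith [F_neg_sphere (Sset_pos hx) h1]

theorem Dom_green : IsGreenFunction Dom pole (greenOf pole Hf) :=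
  green_isGreen isOpen_Dom pole_mem (fun _ hx => Hf_harm hx.2.1) (fun _ hx hp => F_pos hx hp)
    isCompact_Sset (fun _ hx => (Hf_harm (Sset_pos hx)).1.continuousAt.continuousWithinAt)
    (fun _ hx => Sset_nhds hx) (fun _ hx hp h => Sset_Dom hx hp h)

theorem Dom_connected : IsConnected Dom :=
  green_connected isOpen_Dom pole_mem (fun _ hx => Hf_harm hx.2.1) (fun _ hx hp => F_pos hx hp)
    isCompact_Sset (fun _ hx => (Hf_harm (Sset_pos hx)).1.continuousAt.continuousWithinAt)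
    (fun _ hx => Sset_nhds hx) (fun _ hx hp h => Sset_Dom hx hp h)

end Pool.Agent.Lib.MP_770c06_an
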