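import Mathlib
import Pool.Agent.Lib.MP_770c06_an.Geometry

/-! The domain is linearly accessible. -/

open Metric Set Filter Topology
open scoped RealInnerProductSpace ENNReal

namespace Pool.Agent.Lib.MP_770c06_an

theorem radial_sub (y : V3) (s : ℝ) :
    y + s • (‖y - pole‖⁻¹ • (y - pole)) - pole = (1 + s * ‖y - pole‖⁻¹) • (y - pole) := by
  rw [add_smul, one_smul, smul_smul]
  abel

theorem radial_unit {y : V3} (h : 0 < ‖y - pole‖) : ‖‖y - pole‖⁻¹ • (y - pole)‖ = 1 := by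
  rw [norm_smul, norm_inv, norm_norm, inv_mul_cancel₀ h.ne']

theorem radial_rho {y : V3} (h : 0 < ‖y - pole‖) {s : ℝ} (hs : 0 ≤ s) :
    ‖y + s • (‖y - pole‖⁻¹ • (y - pole)) - pole‖ = ‖y - pole‖ + s := by
  rw [radial_sub, norm_smul, Real.norm_of_nonneg (by positivity)]
  field_simp

theorem up_log {y : V3} {s : ℝ} (hs : 0 ≤ s) (hw : 0 < wf (y + s • ev)) :
    Real.log (wf (y + s • ev) / 200) ≤ Real.log (wf y / 200) :=
  Real.log_le_log (by positivity) (by linarith [up_wf y hs])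

theorem up_rho_sq (y : V3) (s : ℝ) :
    ‖y + s • ev - pole‖ ^ 2 = (y 0 - 3) ^ 2 + y 1 ^ 2 + (y 2 + s - 4) ^ 2 := by
  rw [rho_sq, up_0, up_1, up_2]

/-- upward rays from the upper part -/
theorem case_upper {y : V3} (hρ : 0 < ‖y - pole‖) (hw : 0 < wf y) (h29 : ‖y - pole‖ ≤ 29)
    (hF : ‖y - pole‖⁻¹ + Hf y ≤ 0) (hz : 4 ≤ y 2) {s : ℝ} (hs : 0 ≤ s) : y + s • ev ∉ Dom := by
  intro hx
  have h1 : ‖y - pole‖ ≤ ‖y + s • ev - pole‖ := by
    refine le_of_sq_le_sq ?_ (norm_nonneg _)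
    rw [up_rho_sq, rho_sq]
    nlinarith
  have hp : y + s • ev ≠ pole := by
    intro h
    rw [h] at h1
    simp only [sub_self, norm_zero] at h1
    linarith
  have h2 := F_pos hx hp
  have h3 : ‖y + s • ev - pole‖⁻¹ ≤ ‖y - pole‖⁻¹ := inv_anti₀ hρ h1
  have h4 := up_log hs hx.2.1
  have h5 := log_wf_le hw (wf_le h29)
  have h6 := up_norm y hs
  have h7 : (y 2 + s + 1) * Real.log (wf (y + s • ev) / 200) ≤
      (y 2 + 1) * Real.log (wf y / 200) - s := by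
    have := mul_le_mul_of_nonneg_left h4 (by linarith : 0 ≤ y 2 + s + 1)
    nlinarith
  simp only [Hf, up_2] at h2 hF
  linarith

theorem tube_aux1 {Z s ρ ρ' : ℝ} (hZ0 : 0 < Z) (hs : 0 ≤ s) (r1 : 29 / 10 ≤ ρ)
    (r2 : 29 / 10 ≤ ρ') (a0 : ρ ^ 2 - ρ' ^ 2 = s * (2 * (5 - Z) - s)) :
    Z * (ρ'⁻¹ - ρ⁻¹) ≤ 3 / 4 * s * ρ⁻¹ := by
  have k1 : Z * (ρ - ρ') ≤ 3 / 4 * s * ρ' := by
    rcases le_total ρ ρ' with h | h
    · have : Z * (ρ - ρ') ≤ 0 := mul_nonpos_of_nonneg_of_nonpos hZ0.le (by linarith)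
      have : 0 ≤ 3 / 4 * s * ρ' := by positivity
      linarith
    · have a2 : Z * (2 * (5 - Z) - s) ≤ 25 / 2 := by
        nlinarith [sq_nonneg (Z - 5 / 2), mul_nonneg hZ0.le hs]
      have a3 : Z * (ρ - ρ') * (ρ + ρ') ≤ 25 / 2 * s := by
        have : Z * (ρ - ρ') * (ρ + ρ') = s * (Z * (2 * (5 - Z) - s)) := by
          linear_combination Z * a0
        rw [this]
        nlinarith [mul_le_mul_of_nonneg_left a2 hs]
      have a4 : 0 ≤ Z * (ρ - ρ') := mul_nonneg hZ0.le (by linarith)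
      have a5 : Z * (ρ - ρ') * (29 / 5) ≤ Z * (ρ - ρ') * (ρ + ρ') :=
        mul_le_mul_of_nonneg_left (by linarith) a4
      have a6 : s * (29 / 10) ≤ s * ρ' := mul_le_mul_of_nonneg_left r2 hs
      linarith
  have h1 : 0 < ρ := by linarith
  have h2 : 0 < ρ' := by linarith
  have : Z * (ρ'⁻¹ - ρ⁻¹) = Z * (ρ - ρ') / (ρ * ρ') := by field_simp
  rw [this, div_le_iff₀ (by positivity)]
  have : 3 / 4 * s * ρ⁻¹ * (ρ * ρ') = 3 / 4 * s * ρ' := by field_simp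
  rw [this]; exact k1

theorem tube_aux2 {Z s a a' l l' R R' : ℝ} (hZ0 : 0 < Z) (hZ5 : Z ≤ 5) (hs : 0 ≤ s)
    (k2 : Z * (a' - a) ≤ 3 / 4 * s * a) (k3 : 10 / 51 ≤ a) (h7 : l' ≤ l) (hR : 0 ≤ R)
    (h8 : R' ≤ R + s) (hF : a + (-(1 / 25) + 1 / 100000 * (Z * l + R)) ≤ 0) :
    a' + (-(1 / 25) + 1 / 100000 * ((Z + s) * l' + R')) ≤ 0 := by
  by_contra hn
  rw [not_le] at hn
  have m1 : (Z + s) * l' ≤ (Z + s) * l := mul_le_mul_of_nonneg_left h7 (by linarith)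
  have m2 : 0 < Z * (a' - 1 / 25 + 1 / 100000 * ((Z + s) * l + R + s)) := by
    apply mul_pos hZ0
    linarith
  have m3 : (Z + s) * (a - 1 / 25 + 1 / 100000 * (Z * l + R)) ≤ 0 :=
    mul_nonpos_of_nonneg_of_nonpos (by linarith) (by linarith)
  have m4 : s * (10 / 51) ≤ s * a := mul_le_mul_of_nonneg_left k3 hs
  have m5 : s * Z ≤ s * 5 := mul_le_mul_of_nonneg_left hZ5 hs
  have m6 : 0 ≤ s * R := mul_nonneg hs hR
  nlinarith

theorem tube_aux3 {a b z w : ℝ} (h1 : a ^ 2 + b ^ 2 = w * (w + 2 * z)) (hw : 0 < w)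
    (hw1 : w ≤ 1 / 1000) (hz : z ≤ 4) : a ^ 2 + b ^ 2 ≤ (9 / 100) ^ 2 := by
  nlinarith

theorem tube_aux4 {a b c ρ : ℝ} (h : a ^ 2 + b ^ 2 ≤ (9 / 100) ^ 2) (h0 : 0 ≤ ρ)
    (e : ρ ^ 2 = (a - 3) ^ 2 + b ^ 2 + c ^ 2) : 29 / 10 ≤ ρ := by
  have h6 := abs_le_of_sq_le_sq' (a := a) (b := 9 / 100) (by nlinarith [sq_nonneg b])
    (by norm_num)
  refine le_of_sq_le_sq ?_ h0
  nlinarith [sq_nonneg b, sq_nonneg c]

theorem tube_aux5 {a b z ρ : ℝ} (h : a ^ 2 + b ^ 2 ≤ (9 / 100) ^ 2) (hz : z ≤ 4)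
    (hz' : -(1 / 1000) ≤ z) (e : ρ ^ 2 = (a - 3) ^ 2 + b ^ 2 + (z - 4) ^ 2) : ρ ≤ 51 / 10 := by
  have h6 := abs_le_of_sq_le_sq' (a := a) (b := 9 / 100) (by nlinarith [sq_nonneg b])
    (by norm_num)
  refine le_of_sq_le_sq ?_ (by norm_num)
  nlinarith

/-- upward rays from the tube around the spike -/
theorem case_tube {y : V3} (hw : 0 < wf y) (hw1 : wf y ≤ 1 / 1000)
    (hF : ‖y - pole‖⁻¹ + Hf y ≤ 0) (hz : y 2 ≤ 4) {s : ℝ} (hs : 0 ≤ s) : y + s • ev ∉ Dom := by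
  intro hx
  have h2 := z_ge y
  have h5 := tube_aux3 (horiz y) hw hw1 hz
  have e1 := rho_sq y
  have e2 := up_rho_sq y s
  have r1 := tube_aux4 h5 (norm_nonneg _) e1
  have r2 := tube_aux4 h5 (norm_nonneg _) e2
  have r3 := tube_aux5 h5 hz (by linarith) e1
  have hp : y + s • ev ≠ pole := by
    intro h
    rw [h] at r2
    simp only [sub_self, norm_zero] at r2
    linarith
  have hFx := F_pos hx hp
  have hZ0 : 0 < y 2 + 1 := by linarith
  have k2 := tube_aux1 hZ0 hs r1 r2 (by rw [e1, e2]; ring)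
  have k3 : 10 / 51 ≤ ‖y - pole‖⁻¹ := by
    rw [le_inv_comm₀ (by norm_num) (by linarith)]
    linarith
  have := tube_aux2 hZ0 (by linarith) hs k2 k3 (up_log hs hx.2.1) (norm_nonneg y) (up_norm y hs) hF
  simp only [Hf, up_2] at hFx
  rw [show y 2 + s + 1 = y 2 + 1 + s by ring] at hFx
  linarith

theorem log_big {a : ℝ} (h : 1 / 1000 ≤ a) : -13 ≤ Real.log (a / 200) := by
  rw [Real.le_log_iff_exp_le (by positivity)]
  have h1 : Real.exp (-13) = (Real.exp 1 ^ 13)⁻¹ := by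
    rw [← Real.exp_nat_mul, ← Real.exp_neg]; norm_num
  have h2 : (27 / 10 : ℝ) ≤ Real.exp 1 := by linarith [Real.exp_one_gt_d9]
  have h3 : (27 / 10 : ℝ) ^ 13 ≤ Real.exp 1 ^ 13 := pow_le_pow_left₀ (by norm_num) h2 13
  have h4 : (200000 : ℝ) ≤ Real.exp 1 ^ 13 := le_trans (by norm_num) h3
  have h5 : (Real.exp 1 ^ 13)⁻¹ ≤ (200000 : ℝ)⁻¹ := inv_anti₀ (by norm_num) h4
  rw [h1]
  linarith

theorem log_diff {a b : ℝ} (ha : 15 ≤ a) (hb : 15 ≤ b) {d : ℝ} (h : a - b ≤ d) (hd : 0 ≤ d) :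
    Real.log (a / 200) - Real.log (b / 200) ≤ d / 15 := by
  rw [← Real.log_div (by positivity) (by positivity)]
  have h1 := Real.log_le_sub_one_of_pos (x := a / 200 / (b / 200)) (by positivity)
  have h2 : a / 200 / (b / 200) - 1 = (a - b) / b := by field_simp
  have h3 : (a - b) / b ≤ d / 15 := by
    rw [div_le_div_iff₀ (by linarith) (by norm_num)]
    nlinarith
  linarith

/-- radial rays from the outer lower part -/
theorem case_outer {y : V3} (hρ : 0 < ‖y - pole‖) (hw1 : 1 / 1000 ≤ wf y) (h29 : ‖y - pole‖ ≤ 29)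
    (hF : ‖y - pole‖⁻¹ + Hf y ≤ 0) (hz : y 2 ≤ 4) {s : ℝ} (hs : 0 ≤ s) :
    y + s • (‖y - pole‖⁻¹ • (y - pole)) ∉ Dom := by
  intro hx
  have hw : 0 < wf y := by linarith
  have l1 := log_big hw1
  have l2 := log_wf_le hw (wf_le h29)
  have hR := norm_nonneg y
  have r1 : 24 ≤ ‖y - pole‖ := by
    have a1 : -65 ≤ (y 2 + 1) * Real.log (wf y / 200) := by
      rcases le_total 0 (y 2 + 1) with h | h <;> nlinarith
    have a2 : ‖y - pole‖⁻¹ ≤ 1 / 24 := by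
      simp only [Hf] at hF
      linarith
    rw [inv_le_comm₀ hρ (by norm_num)] at a2
    linarith
  have e1 := radial_rho hρ hs
  have e2 : (y + s • (‖y - pole‖⁻¹ • (y - pole))) 2 = y 2 + s * (‖y - pole‖⁻¹ * (y 2 - 4)) := by
    simp [pole]
  have e3 : ‖y + s • (‖y - pole‖⁻¹ • (y - pole)) - y‖ = s := by
    rw [add_sub_cancel_left, norm_smul, radial_unit hρ, mul_one, Real.norm_of_nonneg hs]
  set x := y + s • (‖y - pole‖⁻¹ • (y - pole)) with hxdef
  have hp : x ≠ pole := by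
    intro h
    rw [h] at e1
    simp only [sub_self, norm_zero] at e1
    linarith
  have hFx := F_pos hx hp
  have z1 : x 2 ≤ y 2 := by
    rw [e2]
    have : 0 ≤ s * (‖y - pole‖⁻¹ * (4 - y 2)) := by
      have : 0 ≤ 4 - y 2 := by linarith
      positivity
    linarith
  have z2 : y 2 - x 2 ≤ s := by
    have := abs_le.1 (abs_coord_le (x - y) 2)
    rw [e3] at this
    simp only [PiLp.sub_apply] at this
    linarith
  have n1 := abs_le.1 (abs_norm_sub_norm_le x y)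
  rw [e3] at n1
  have hx29 := hx.1
  have w1 : 15 ≤ wf x := by
    have := rho_le_norm x
    simp only [wf]; linarith
  have w2 : 15 ≤ wf y := by
    have := rho_le_norm y
    simp only [wf]; linarith
  have d1 := log_diff w1 w2 (d := 2 * s) (by simp only [wf]; linarith) (by linarith)
  have d2 := log_diff w2 w1 (d := 2 * s) (by simp only [wf]; linarith) (by linarith)
  have d3 : -Real.log (wf x / 200) ≤ 14 := by
    have := neg_log_le hx.2.1
    have h8 : 200 / wf x ≤ 14 := by rw [div_le_iff₀ hx.2.1]; linarith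
    linarith
  have d4 := log_wf_le hx.2.1 (wf_le hx29.le)
  have b1 := abs_le.1 (abs_coord_le y 2)
  have b2 := norm_le_rho y
  set l := Real.log (wf y / 200)
  set l' := Real.log (wf x / 200)
  have m1 : (x 2 - y 2) * l' ≤ 14 * s := by nlinarith
  have m2 : (y 2 + 1) * (l' - l) ≤ 5 * s := by
    rcases le_total 0 (y 2 + 1) with h | h <;> nlinarith
  have m3 : ‖x - pole‖⁻¹ ≤ ‖y - pole‖⁻¹ - s / 841 := by
    rw [e1] at hx29 ⊢
    have a1 : (‖y - pole‖ + s)⁻¹ = ‖y - pole‖⁻¹ - s / (‖y - pole‖ * (‖y - pole‖ + s)) := by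
      field_simp
      ring
    have a2 : s / 841 ≤ s / (‖y - pole‖ * (‖y - pole‖ + s)) :=
      div_le_div_of_nonneg_left hs (by positivity) (by nlinarith)
    linarith
  simp only [Hf] at hFx hF
  nlinarith

theorem Dom_accessible : LinearlyAccessible Dom := by
  refine ⟨isOpen_Dom, fun y hy => ?_⟩
  rcases le_or_gt 29 ‖y - pole‖ with h29 | h29
  · have hρ : 0 < ‖y - pole‖ := by linarith
    refine ⟨_, radial_unit hρ, fun s hs hx => ?_⟩
    have := hx.1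
    rw [radial_rho hρ hs] at this
    linarith
  rcases le_or_gt (wf y) 0 with hw | hw
  · refine ⟨ev, norm_ev, fun s hs hx => ?_⟩
    linarith [hx.2.1, up_wf y hs]
  have hp : y ≠ pole := by rintro rfl; exact hy pole_mem
  have hρ : 0 < ‖y - pole‖ := norm_pos_iff.2 (sub_ne_zero.2 hp)
  have hF : ‖y - pole‖⁻¹ + Hf y ≤ 0 := by
    by_contra hn
    exact hy ⟨h29, hw, (F_pos_iff hp).2 (not_le.1 hn)⟩
  rcases le_total 4 (y 2) with hz | hz
  · exact ⟨ev, norm_ev, fun s hs => case_upper hρ hw h29.le hF hz hs⟩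
  rcases le_total (wf y) (1 / 1000) with hw1 | hw1
  · exact ⟨ev, norm_ev, fun s hs => case_tube hw hw1 hF hz hs⟩
  · exact ⟨_, radial_unit hρ, fun s hs => case_outer hρ hw1 h29.le hF hz hs⟩

end Pool.Agent.Lib.MP_770c06_an
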