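import Mathlib
import Pool.Agent.Lib.MP_770c06_an.Geometry

/-! A point outside the superlevel set from which every ray meets the superlevel set. -/

open Metric Set Filter Topology
open scoped RealInnerProductSpace ENNReal

namespace Pool.Agent.Lib.MP_770c06_an

/-- the superlevel set -/
def Om : Set V3 := {x | x ∈ Dom ∧ ENNReal.ofReal (3 / 20) < greenOf pole Hf x}

/-- a very small number -/
noncomputable def eps : ℝ := 200 * Real.exp (-1100)

/-- the trapped point -/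
noncomputable def ypt : V3 := !₂[0, eps, 0]

theorem eps_pos : 0 < eps := by unfold eps; positivity

theorem exp500 : 200 * Real.exp (-500) ≤ 1 / 50000000 := by
  have h1 : Real.exp (-500) = (Real.exp 100 ^ 5)⁻¹ := by
    rw [← Real.exp_nat_mul, ← Real.exp_neg]; norm_num
  have h2 : (100 : ℝ) ≤ Real.exp 100 := by linarith [Real.add_one_le_exp 100]
  have h3 : (100 : ℝ) ^ 5 ≤ Real.exp 100 ^ 5 := pow_le_pow_left₀ (by norm_num) h2 5
  have h5 : (Real.exp 100 ^ 5)⁻¹ ≤ ((100 : ℝ) ^ 5)⁻¹ := inv_anti₀ (by norm_num) h3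
  rw [h1]
  norm_num at h5 ⊢
  linarith

theorem eps_le : eps ≤ 1 / 50000000 := by
  have : Real.exp (-1100) ≤ Real.exp (-500) := Real.exp_le_exp.2 (by norm_num)
  have := exp500
  unfold eps
  linarith

theorem norm_ypt : ‖ypt‖ = eps := by
  have h : ‖ypt‖ ^ 2 = eps ^ 2 := by
    rw [normsq3]; simp [ypt]
  exact (pow_left_inj₀ (norm_nonneg _) eps_pos.le two_ne_zero).1 h

theorem ypt_not_mem : ypt ∉ Om := by
  intro h
  have h1 : 5 ≤ ‖ypt - pole‖ := by
    refine le_of_sq_le_sq ?_ (norm_nonneg _)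
    rw [rho_sq]
    simp [ypt]
    nlinarith [sq_nonneg eps]
  have hp : ypt ≠ pole := by
    intro h
    rw [h] at h1
    simp at h1
    linarith
  have h2 := h.2
  rw [greenOf_ne Hf hp, ENNReal.ofReal_lt_ofReal_iff'] at h2
  have h3 : ‖ypt - pole‖⁻¹ ≤ 1 / 5 := by
    rw [inv_le_comm₀ (by linarith) (by norm_num)]
    linarith
  have h4 : ypt 2 = 0 := by simp [ypt]
  have h5 : Real.log (wf ypt / 200) = -1100 := by
    rw [wf, norm_ypt, h4, sub_zero, eps, mul_div_cancel_left₀ _ (by norm_num), Real.log_exp]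
  have h6 := h2.1
  rw [Hf, h5, h4, norm_ypt] at h6
  linarith [eps_le]

/-- points outside the superlevel set where the Newton kernel is large are close to the ray -/
theorem near_ray {x : V3} (hx : x ∉ Om) (h0 : 0 < ‖x - pole‖) {r Z l : ℝ} (hr : ‖x - pole‖ ≤ r)
    (hr29 : r < 29) (hZ : x 2 + 1 ≤ Z) (hZ0 : 0 < Z)
    (hl : 19 / 100 + Z * l / 100000 ≤ r⁻¹) : wf x ≤ 200 * Real.exp (-l) := by
  rcases le_or_gt (wf x) 0 with hw | hw
  · exact hw.trans (by positivity)
  have hp : x ≠ pole := sub_ne_zero.1 (norm_pos_iff.1 h0)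
  have hF : ‖x - pole‖⁻¹ + Hf x ≤ 3 / 20 := by
    by_contra hn
    rw [not_le] at hn
    apply hx
    refine ⟨⟨by linarith, hw, (F_pos_iff hp).2 (by linarith)⟩, ?_⟩
    rw [greenOf_ne Hf hp, ENNReal.ofReal_lt_ofReal_iff (by linarith)]
    exact hn
  have h1 : r⁻¹ ≤ ‖x - pole‖⁻¹ := inv_anti₀ h0 hr
  have h2 := log_wf_le hw (wf_le (x := x) (by linarith))
  have h3 : Z * Real.log (wf x / 200) ≤ (x 2 + 1) * Real.log (wf x / 200) := by nlinarith
  have h4 : Z * Real.log (wf x / 200) ≤ Z * (-l) := by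
    simp only [Hf] at hF
    linarith [norm_nonneg x]
  have h5 := (Real.log_le_iff_le_exp (by positivity)).1 (le_of_mul_le_mul_left h4 hZ0)
  linarith

theorem far_point {v : V3} (hv : ‖v‖ = 1) (hve : ‖v - ev‖ ≤ 1 / 1000) {s r : ℝ} (hs0 : 0 ≤ s)
    (hs : s ≤ 4) (hr0 : 0 < r) (hr : 9 + (s - 4) ^ 2 ≤ r ^ 2) (hr4 : r ≤ 4)
    (hl : 19 / 100 + (s + 1) * 2200 / 100000 ≤ (r + 1 / 200)⁻¹) (hx : ypt + s • v ∉ Om) :
    |eps + s * v 1| ≤ 41 * Real.exp (-1100) := by
  set P := ypt + s • v with hP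
  have he := eps_le
  have h1 : ‖P - s • ev‖ ≤ 1 / 200 := by
    have : P - s • ev = ypt + s • (v - ev) := by rw [hP, smul_sub]; abel
    rw [this]
    have h := norm_add_le ypt (s • (v - ev))
    rw [norm_smul, norm_ypt, Real.norm_of_nonneg hs0] at h
    nlinarith [norm_nonneg (v - ev)]
  have e1 : ‖s • ev - pole‖ ^ 2 = 9 + (s - 4) ^ 2 := by
    rw [rho_sq]; simp [ev]; norm_num
  have h2 : ‖s • ev - pole‖ ≤ r := le_of_sq_le_sq (by rw [e1]; exact hr) hr0.le
  have h3 : 3 ≤ ‖s • ev - pole‖ :=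
    le_of_sq_le_sq (by rw [e1]; nlinarith [sq_nonneg (s - 4)]) (norm_nonneg _)
  have h4 : ‖P - pole‖ ≤ r + 1 / 200 := by
    have := norm_sub_le_norm_sub_add_norm_sub P (s • ev) pole
    linarith
  have h5 : 0 < ‖P - pole‖ := by
    have := norm_sub_le_norm_sub_add_norm_sub (s • ev) P pole
    rw [norm_sub_rev (s • ev) P] at this
    linarith
  have hv2 := abs_le.1 (abs_coord_le v 2)
  rw [hv] at hv2
  have h6 : P 2 + 1 ≤ s + 1 := by
    have : P 2 = s * v 2 := by simp [hP, ypt]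
    nlinarith
  have h7 := near_ray hx h5 h4 (by linarith) h6 (by linarith) hl
  have h8 : ‖P‖ ≤ 41 / 10 := by
    have h := norm_add_le ypt (s • v)
    rw [norm_smul, norm_ypt, Real.norm_of_nonneg hs0, hv] at h
    linarith
  have h9 := horiz P
  have h10 : wf P + 2 * P 2 ≤ 41 / 5 := by
    have := abs_le.1 (abs_coord_le P 2)
    simp only [wf]; linarith
  have h11 : P 1 = eps + s * v 1 := by simp [hP, ypt]
  have h12 : Real.exp (-2200) = Real.exp (-1100) ^ 2 := by
    rw [← Real.exp_nat_mul]; norm_num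
  rw [← h11]
  refine abs_le_of_sq_le_sq ?_ (by positivity)
  have h13 : wf P * (wf P + 2 * P 2) ≤ wf P * (41 / 5) :=
    mul_le_mul_of_nonneg_left h10 (wf_nonneg P)
  rw [h12] at h7
  nlinarith [sq_nonneg (P 0), sq_nonneg (Real.exp (-1100))]

theorem trapped (v : V3) (hv : ‖v‖ = 1) : ∃ s : ℝ, 0 ≤ s ∧ ypt + s • v ∈ Om := by
  by_contra hn
  push Not at hn
  have he := eps_le
  have hv2 := abs_le.1 (abs_coord_le v 2)
  rw [hv] at hv2
  have n0 : ‖(1 / 10 : ℝ) • v‖ = 1 / 10 := by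
    rw [norm_smul, hv, mul_one, Real.norm_of_nonneg (by norm_num)]
  have n1 : ‖ypt + (1 / 10 : ℝ) • v‖ ≤ eps + 1 / 10 := by
    have h := norm_add_le ypt ((1 / 10 : ℝ) • v)
    rwa [norm_ypt, n0] at h
  have n2 : 1 / 10 - eps ≤ ‖ypt + (1 / 10 : ℝ) • v‖ := by
    have h := norm_sub_le (ypt + (1 / 10 : ℝ) • v) ypt
    rw [add_sub_cancel_left, n0, norm_ypt] at h
    linarith
  have n3 : (ypt + (1 / 10 : ℝ) • v) 2 = 1 / 10 * v 2 := by simp [ypt]
  have h1 := near_ray (hn (1 / 10) (by norm_num))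
    (by linarith [norm_le_rho (ypt + (1 / 10 : ℝ) • v),
      (show 5 - ‖ypt + (1 / 10 : ℝ) • v‖ ≤ ‖ypt + (1 / 10 : ℝ) • v - pole‖ by
        have := norm_sub_norm_le pole (ypt + (1 / 10 : ℝ) • v)
        rwa [norm_pole, norm_sub_rev] at this)])
    (r := 5101 / 1000) (Z := 11 / 10) (l := 500)
    (by linarith [rho_le_norm (ypt + (1 / 10 : ℝ) • v)]) (by norm_num) (by rw [n3]; linarith)
    (by norm_num) (by norm_num)
  have h2 : 1 - v 2 ≤ 1 / 2000000 := by
    have := exp500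
    rw [wf, n3] at h1
    linarith
  have h3 : ‖v - ev‖ ≤ 1 / 1000 := by
    refine le_of_sq_le_sq ?_ (by norm_num)
    rw [norm_sub_sq_real, hv, norm_ev, real_inner_comm, inner_ev]
    linarith
  have a1 := abs_le.1 (far_point hv h3 (s := 2) (r := 3606 / 1000) (by norm_num) (by norm_num)
    (by norm_num) (by norm_num) (by norm_num) (by norm_num) (hn 2 (by norm_num)))
  have a2 := abs_le.1 (far_point hv h3 (s := 4) (r := 3) (by norm_num) (by norm_num)
    (by norm_num) (by norm_num) (by norm_num) (by norm_num) (hn 4 (by norm_num)))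
  have a3 := Real.exp_pos (-1100)
  have a4 : eps = 200 * Real.exp (-1100) := rfl
  linarith

end Pool.Agent.Lib.MP_770c06_an
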